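import Pool.Agent.X316.ZG.Cur

/-!
The derivation of the field of meromorphic functions on the plane.
-/

set_option autoImplicit false

open Filter Topology Set MvPolynomial

namespace Pool.Agent.X316.ZP

open Pool.Agent.X316.ZG
open Pool.Agent.TH143.EL (mero_an codis_ev codis_nhds)

theorem mero_deriv {f : ℂ → ℂ} (hf : Meromorphic f) : Meromorphic (deriv f) :=
  fun x => (hf x).deriv

theorem deriv_codis {f g : ℂ → ℂ} (h : ∀ᶠ z in codiscrete ℂ, f z = g z) :
    ∀ᶠ z in codiscrete ℂ, deriv f z = deriv g z := by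
  filter_upwards [h] with z hz
  have h1 : f =ᶠ[𝓝 z] g := codis_nhds h hz
  exact h1.deriv_eq

/-- a representative -/
noncomputable def rp (x : Mf) : merS := (Ideal.Quotient.mk_surjective x).choose

theorem mk_rp (x : Mf) : Ideal.Quotient.mk nullI (rp x) = x :=
  (Ideal.Quotient.mk_surjective x).choose_spec

/-- the derivative of a class -/
noncomputable def dMf (x : Mf) : Mf := cl (deriv (rp x : ℂ → ℂ)) (mero_deriv (rp x).2)

theorem cl_eq_iff {f g : ℂ → ℂ} {hf : Meromorphic f} {hg : Meromorphic g} :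
    cl f hf = cl g hg ↔ ∀ᶠ z in codiscrete ℂ, f z = g z := by
  constructor
  · intro h
    have h1 : Ideal.Quotient.mk nullI (⟨f, hf⟩ : merS) = Ideal.Quotient.mk nullI ⟨g, hg⟩ := h
    rw [Ideal.Quotient.eq, mem_nullI] at h1
    filter_upwards [h1] with z hz
    exact sub_eq_zero.1 hz
  · exact cl_eq

theorem dMf_cl {f : ℂ → ℂ} (hf : Meromorphic f) : dMf (cl f hf) = cl (deriv f) (mero_deriv hf) := by
  unfold dMf
  apply cl_eq
  apply deriv_codis
  have h1 := mk_rp (cl f hf)
  exact (cl_eq_iff (hf := (rp (cl f hf)).2) (hg := hf)).1 h1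

theorem cl_surj (x : Mf) : ∃ (f : ℂ → ℂ) (hf : Meromorphic f), cl f hf = x :=
  ⟨(rp x : ℂ → ℂ), (rp x).2, mk_rp x⟩

theorem cl_add {f g : ℂ → ℂ} (hf : Meromorphic f) (hg : Meromorphic g) :
    cl f hf + cl g hg = cl (fun z => f z + g z) (hf.add hg) := rfl

theorem cl_mul {f g : ℂ → ℂ} (hf : Meromorphic f) (hg : Meromorphic g) :
    cl f hf * cl g hg = cl (fun z => f z * g z) (hf.mul hg) := rfl

theorem cl_const (c : ℂ) : algebraMap ℂ Mf c = cl (fun _ => c) (Meromorphic.const c) := rfl

/-- the derivation of the field of meromorphic functions -/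
noncomputable def dM : Derivation ℂ Mf Mf :=
  Derivation.mk'
    { toFun := dMf
      map_add' := by
        intro x y
        obtain ⟨f, hf, rfl⟩ := cl_surj x
        obtain ⟨g, hg, rfl⟩ := cl_surj y
        rw [cl_add, dMf_cl, dMf_cl, dMf_cl, cl_add]
        apply cl_eq
        filter_upwards [mero_an hf, mero_an hg] with z h1 h2
        exact deriv_fun_add h1.differentiableAt h2.differentiableAt
      map_smul' := by
        intro c x
        obtain ⟨f, hf, rfl⟩ := cl_surj x
        rw [Algebra.smul_def, cl_const, cl_mul, dMf_cl, dMf_cl, RingHom.id_apply, Algebra.smul_def,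
          cl_const, cl_mul]
        apply cl_eq
        filter_upwards [mero_an hf] with z h1
        exact deriv_const_mul c h1.differentiableAt }
    (by
      intro x y
      obtain ⟨f, hf, rfl⟩ := cl_surj x
      obtain ⟨g, hg, rfl⟩ := cl_surj y
      change dMf (cl f hf * cl g hg) = cl f hf * dMf (cl g hg) + cl g hg * dMf (cl f hf)
      rw [cl_mul, dMf_cl, dMf_cl, dMf_cl, cl_mul, cl_mul, cl_add]
      apply cl_eq
      filter_upwards [mero_an hf, mero_an hg] with z h1 h2
      rw [deriv_fun_mul h1.differentiableAt h2.differentiableAt]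
      ring)

theorem dM_cl {f : ℂ → ℂ} (hf : Meromorphic f) : dM (cl f hf) = cl (deriv f) (mero_deriv hf) :=
  dMf_cl hf

theorem dM_xc {ι : Type} {u : ι → ℂ → ℂ} (hu : ∀ j, Meromorphic (u j)) (j : ι) (i : ℕ) :
    dM (xc hu (j, i)) = xc hu (j, i + 1) := by
  unfold xc
  rw [dM_cl]
  apply cl_eq
  refine Eventually.of_forall fun z => ?_
  change deriv (iteratedDeriv i (u j)) z = iteratedDeriv (i + 1) (u j) z
  rw [iteratedDeriv_succ]

end Pool.Agent.X316.ZP
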