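import Pool.Agent.X316.ZP.Thin

/-!
The step of a chain given by the closure of the image of an affine space in a quasi-projective
variety. (This is the library's `goodSet_parc` for tori, for the maps from tori which factor through
affine spaces.)
-/

set_option autoImplicit false

open Topology Set

namespace Pool.Agent.X316.ZP

open Pool.Agent.Y193.CS
open Pool.Agent.Y193.FG

section

variable {n : ℕ} {ι μ : Type} [Fintype μ]

/-- the points reached from `A` through the closure of the image of an affine space -/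
def parcSetA (p : ι → MvPolynomial (Fin (n + 1)) ℂ) (q : μ → MvPolynomial (Fin (n + 1)) ℂ)
    (κ : Code) (D : ℕ) (j0 : Fin κ.k) (A : Set (Fin (n + 1) × Fin (n + 1) → ℂ)) : Set (Fin (n + 1) × Fin (n + 1) → ℂ) :=
  {M' | ∃ (c : Fin (n + 1) → (Fin κ.k → Fin (2 * κ.d + 1)) → ℂ)
    (g : μ × Fin (n + 1) → (Fin κ.k → Fin (2 * κ.d + 1)) → ℂ)
    (P : Fin κ.k → Fin (κ.e + 1) → ℂ) (u : Fin κ.k → ℂ) (R : Fin (n + 1) → Fin (κ.e' + 1) → ℂ)
    (P' : Fin κ.k → Fin (κ.e + 1) → ℂ) (u' : Fin κ.k → ℂ) (R' : Fin (n + 1) → Fin (κ.e' + 1) → ℂ)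
    (v η v' η' : Fin (n + 1) → ℂ) (h : μ → ℂ)
    (B : Fin (n + 1) → (Fin κ.k → Fin (D + 1)) → ℂ),
    (∀ t ∈ TT κ.k, ∀ i, MvPolynomial.eval (fun l => lev (c l) t) (p i) = 0) ∧
    (∀ t ∈ TT κ.k, ∑ b, lev (g b) t * MvPolynomial.eval (fun l => lev (c l) t) (q b.1) *
      lev (c b.2) t = 1) ∧
    ∑ i, v i * η i = 1 ∧ outer v η ∈ A ∧ ArcOK κ.a c P u R v ∧
    ∑ i, v' i * η' i = 1 ∧ outer v' η' = M' ∧ ArcOK κ.a' c P' u' R' v' ∧
    (∀ i, MvPolynomial.eval v' (p i) = 0) ∧ ∑ j, h j * MvPolynomial.eval v' (q j) = 1 ∧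
    ∀ t ∈ TT κ.k, ∀ l, lev (c l) t = t j0 * bev (B l) (fun j => t j + (t j)⁻¹)}

/-- the map `t + 1 / t` -/
theorem jouk_surj {k : ℕ} (z : Fin k → ℂ) : ∃ t ∈ TT k, (fun j => t j + (t j)⁻¹) = z := by
  choose s hs0 hs using exists_joukowski
  exact ⟨fun j => s (z j), fun j => hs0 _, funext fun j => hs (z j)⟩

theorem goodSet_parcA (𝒱 : PClass) {p : ι → MvPolynomial (Fin (n + 1)) ℂ}
    {q : μ → MvPolynomial (Fin (n + 1)) ℂ} (hp : ∀ i, ∃ d, (p i).IsHomogeneous d)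
    (hq : ∀ j, ∃ d, (q j).IsHomogeneous d) {ρ : C(QA (PT p) (QT q), QP p q)}
    (hρ : ∀ (v η : Fin (n + 1) → ℂ) (hv : v ≠ 0) (h : outer v η ∈ QA (PT p) (QT q)),
        ∑ i, v i * η i = 1 → (ρ ⟨outer v η, h⟩).1 = CP.mk v hv) (κ : Code) (D : ℕ) (j0 : Fin κ.k)
    {A : Set (Fin (n + 1) × Fin (n + 1) → ℂ)} (hA : GoodSet 𝒱 (QA (PT p) (QT q)) ρ A) :
    GoodSet 𝒱 (QA (PT p) (QT q)) ρ (parcSetA p q κ D j0 A) := by
  classical
  obtain ⟨J, hJ, W, hW, e, he, hcov, hkill⟩ := hA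
  let X : Set (Fin (n + 1) → ℂ) := {v | ∃ hv : v ≠ 0, CP.mk v hv ∈ QP p q}
  let π : C(X, QP p q) := ⟨fun v => ⟨CP.mk v.1 v.2.choose, v.2.choose_spec⟩,
    Continuous.subtype_mk (continuous_mk continuous_subtype_val (fun v => v.2.choose)) _⟩
  have hπ : ∀ (v : X) (hv : v.1 ≠ 0), (π v).1 = CP.mk v.1 hv := fun v hv => rfl
  let T : Type := Fin (n + 1)
  let E : Type := Fin κ.k → Fin (2 * κ.d + 1)
  let E' : Type := Fin κ.k → Fin (D + 1)
  let J' : Type := J ⊕ ((T × E) ⊕ (((μ × T) × E) ⊕ (ArcJ T κ ⊕ (ArcJ T κ ⊕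
    (T ⊕ (T ⊕ (T ⊕ (T ⊕ (μ ⊕ (T × E'))))))))))
  let cw : (J' → ℂ) → J → ℂ := fun w j => w (Sum.inl j)
  let cc : (J' → ℂ) → T → E → ℂ := fun w l α => w (Sum.inr (Sum.inl (l, α)))
  let cg : (J' → ℂ) → μ × T → E → ℂ := fun w l α => w (Sum.inr (Sum.inr (Sum.inl (l, α))))
  let cP : (J' → ℂ) → Fin κ.k → Fin (κ.e + 1) → ℂ := fun w j i =>
    w (Sum.inr (Sum.inr (Sum.inr (Sum.inl (Sum.inl (j, i))))))
  let cu : (J' → ℂ) → Fin κ.k → ℂ := fun w j =>
    w (Sum.inr (Sum.inr (Sum.inr (Sum.inl (Sum.inr (Sum.inl j))))))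
  let cR : (J' → ℂ) → T → Fin (κ.e' + 1) → ℂ := fun w l i =>
    w (Sum.inr (Sum.inr (Sum.inr (Sum.inl (Sum.inr (Sum.inr (l, i)))))))
  let cP' : (J' → ℂ) → Fin κ.k → Fin (κ.e + 1) → ℂ := fun w j i =>
    w (Sum.inr (Sum.inr (Sum.inr (Sum.inr (Sum.inl (Sum.inl (j, i)))))))
  let cu' : (J' → ℂ) → Fin κ.k → ℂ := fun w j =>
    w (Sum.inr (Sum.inr (Sum.inr (Sum.inr (Sum.inl (Sum.inr (Sum.inl j)))))))
  let cR' : (J' → ℂ) → T → Fin (κ.e' + 1) → ℂ := fun w l i =>
    w (Sum.inr (Sum.inr (Sum.inr (Sum.inr (Sum.inl (Sum.inr (Sum.inr (l, i))))))))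
  let cv : (J' → ℂ) → T → ℂ := fun w l =>
    w (Sum.inr (Sum.inr (Sum.inr (Sum.inr (Sum.inr (Sum.inl l))))))
  let cn : (J' → ℂ) → T → ℂ := fun w l =>
    w (Sum.inr (Sum.inr (Sum.inr (Sum.inr (Sum.inr (Sum.inr (Sum.inl l)))))))
  let cv' : (J' → ℂ) → T → ℂ := fun w l =>
    w (Sum.inr (Sum.inr (Sum.inr (Sum.inr (Sum.inr (Sum.inr (Sum.inr (Sum.inl l))))))))
  let cn' : (J' → ℂ) → T → ℂ := fun w l =>
    w (Sum.inr (Sum.inr (Sum.inr (Sum.inr (Sum.inr (Sum.inr (Sum.inr (Sum.inr (Sum.inl l)))))))))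
  let ch : (J' → ℂ) → μ → ℂ := fun w j =>
    w (Sum.inr (Sum.inr (Sum.inr (Sum.inr (Sum.inr (Sum.inr (Sum.inr (Sum.inr (Sum.inr
      (Sum.inl j))))))))))
  let cB : (J' → ℂ) → T → E' → ℂ := fun w l α =>
    w (Sum.inr (Sum.inr (Sum.inr (Sum.inr (Sum.inr (Sum.inr (Sum.inr (Sum.inr (Sum.inr
      (Sum.inr (l, α)))))))))))
  let W' : Set (J' → ℂ) := {w | cw w ∈ W} ∩
    (⋂ t : TT κ.k, ⋂ i, {w | MvPolynomial.eval (fun l => lev (cc w l) t.1) (p i) = 0}) ∩
    (⋂ t : TT κ.k, {w | (∑ b, lev (cg w b) t.1 * MvPolynomial.eval (fun l => lev (cc w l) t.1) (q b.1)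
      * lev (cc w b.2) t.1) - 1 = 0}) ∩
    {w | (∑ i, cv w i * cn w i) - 1 = 0} ∩
    (⋂ b : T × T, {w | cv w b.1 * cn w b.2 - MvPolynomial.eval (cw w) (e b) = 0}) ∩
    {w | ArcOK κ.a (cc w) (cP w) (cu w) (cR w) (cv w)} ∩
    {w | (∑ i, cv' w i * cn' w i) - 1 = 0} ∩
    {w | ArcOK κ.a' (cc w) (cP' w) (cu' w) (cR' w) (cv' w)} ∩
    (⋂ i, {w | MvPolynomial.eval (cv' w) (p i) = 0}) ∩
    {w | (∑ j, ch w j * MvPolynomial.eval (cv' w) (q j)) - 1 = 0} ∩
    (⋂ t : TT κ.k, ⋂ l, {w | lev (cc w l) t.1 - t.1 j0 *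
      bev (cB w l) (fun j => t.1 j + (t.1 j)⁻¹) = 0})
  have hlev : ∀ (t : Fin κ.k → ℂ) (l : T), PolyF (fun w : J' → ℂ => lev (cc w l) t) := fun t l =>
    polyF_lev (fun α => PolyF.coord _) t
  have hW' : AlgSet W' := by
    refine (((((((((AlgSet.inter ?_ ?_).inter ?_).inter ?_).inter ?_).inter ?_).inter ?_).inter
      ?_).inter ?_).inter ?_).inter ?_
    · exact hW.preimage (fun j => PolyF.coord _)
    · exact AlgSet.iInter (fun t => AlgSet.iInter (fun i => AlgSet.zero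
        (PolyF.comp (fun l => hlev t.1 l) _)))
    · exact AlgSet.iInter (fun t => AlgSet.zero (PolyF.sub (PolyF.sum _ (fun b =>
        ((polyF_lev (fun α => PolyF.coord _) t.1).mul (PolyF.comp (fun l => hlev t.1 l) _)).mul
          (hlev t.1 b.2))) (PolyF.const 1)))
    · exact AlgSet.zero (PolyF.sub (PolyF.sum _ (fun i => (PolyF.coord _).mul (PolyF.coord _)))
        (PolyF.const 1))
    · exact AlgSet.iInter (fun b => AlgSet.zero (PolyF.sub ((PolyF.coord _).mul (PolyF.coord _))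
        (PolyF.comp (fun j => PolyF.coord _) _)))
    · exact algSet_arcOK κ.a (fun l α => PolyF.coord _) (fun j i => PolyF.coord _)
        (fun j => PolyF.coord _) (fun l i => PolyF.coord _) (fun l => PolyF.coord _)
    · exact AlgSet.zero (PolyF.sub (PolyF.sum _ (fun i => (PolyF.coord _).mul (PolyF.coord _)))
        (PolyF.const 1))
    · exact algSet_arcOK κ.a' (fun l α => PolyF.coord _) (fun j i => PolyF.coord _)
        (fun j => PolyF.coord _) (fun l i => PolyF.coord _) (fun l => PolyF.coord _)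
    · exact AlgSet.iInter (fun i => AlgSet.zero (PolyF.comp (fun l => PolyF.coord _) _))
    · exact AlgSet.zero (PolyF.sub (PolyF.sum _ (fun j => (PolyF.coord _).mul
        (PolyF.comp (fun l => PolyF.coord _) _))) (PolyF.const 1))
    · exact AlgSet.iInter (fun t => AlgSet.iInter (fun l => AlgSet.zero (PolyF.sub (hlev t.1 l)
        ((PolyF.const _).mul (polyF_bev (fun α => PolyF.coord _) (fun j => PolyF.const _))))))
  have hmem : ∀ w : J' → ℂ, w ∈ W' ↔ (cw w ∈ W ∧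
      (∀ t ∈ TT κ.k, ∀ i, MvPolynomial.eval (fun l => lev (cc w l) t) (p i) = 0) ∧
      (∀ t ∈ TT κ.k, ∑ b, lev (cg w b) t * MvPolynomial.eval (fun l => lev (cc w l) t) (q b.1) *
        lev (cc w b.2) t = 1) ∧
      ∑ i, cv w i * cn w i = 1 ∧ (∀ b : T × T, cv w b.1 * cn w b.2 = MvPolynomial.eval (cw w) (e b)) ∧
      ArcOK κ.a (cc w) (cP w) (cu w) (cR w) (cv w) ∧
      ∑ i, cv' w i * cn' w i = 1 ∧ ArcOK κ.a' (cc w) (cP' w) (cu' w) (cR' w) (cv' w) ∧
      (∀ i, MvPolynomial.eval (cv' w) (p i) = 0) ∧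
      ∑ j, ch w j * MvPolynomial.eval (cv' w) (q j) = 1 ∧
      ∀ t ∈ TT κ.k, ∀ l, lev (cc w l) t = t j0 * bev (cB w l) (fun j => t j + (t j)⁻¹)) := by
    intro w
    constructor
    · rintro ⟨⟨⟨⟨⟨⟨⟨⟨⟨⟨h1, h2⟩, h3⟩, h4⟩, h5⟩, h6⟩, h7⟩, h8⟩, h9⟩, h10⟩, h11⟩
      rw [mem_iInter] at h2 h3 h5 h9 h11
      refine ⟨h1, fun t ht i => ?_, fun t ht => sub_eq_zero.mp (h3 ⟨t, ht⟩), sub_eq_zero.mp h4,
        fun b => sub_eq_zero.mp (h5 b), h6, sub_eq_zero.mp h7, h8, h9, sub_eq_zero.mp h10,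
        fun t ht l => ?_⟩
      · have := h2 ⟨t, ht⟩
        rw [mem_iInter] at this
        exact this i
      · have := h11 ⟨t, ht⟩
        rw [mem_iInter] at this
        exact sub_eq_zero.mp (this l)
    · rintro ⟨h1, h2, h3, h4, h5, h6, h7, h8, h9, h10, h11⟩
      refine ⟨⟨⟨⟨⟨⟨⟨⟨⟨⟨h1, ?_⟩, ?_⟩, sub_eq_zero.mpr h4⟩, ?_⟩, h6⟩, sub_eq_zero.mpr h7⟩, h8⟩, ?_⟩,
        sub_eq_zero.mpr h10⟩, ?_⟩
      · rw [mem_iInter]
        intro t
        rw [mem_iInter]
        exact fun i => h2 t.1 t.2 i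
      · rw [mem_iInter]
        exact fun t => sub_eq_zero.mpr (h3 t.1 t.2)
      · rw [mem_iInter]
        exact fun b => sub_eq_zero.mpr (h5 b)
      · rw [mem_iInter]
        exact h9
      · rw [mem_iInter]
        intro t
        rw [mem_iInter]
        exact fun l => sub_eq_zero.mpr (h11 t.1 t.2 l)
  -- the points of the cone
  have hXof : ∀ v : T → ℂ, v ≠ 0 → (∀ i, MvPolynomial.eval v (p i) = 0) →
      (∃ j, MvPolynomial.eval v (q j) ≠ 0) → v ∈ X := fun v hv h1 h2 =>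
    ⟨hv, (mem_QP hp hq).mpr ⟨h1, h2⟩⟩
  have hXt : ∀ w ∈ W', ∀ t ∈ TT κ.k, (fun l => lev (cc w l) t) ∈ X := by
    intro w hw t ht
    obtain ⟨-, h2, h3, -⟩ := (hmem w).mp hw
    have h4 := h3 t ht
    refine hXof _ (fun h0 => ?_) (h2 t ht) ?_
    · rw [Finset.sum_eq_zero (fun b _ => by
        rw [show lev (cc w b.2) t = 0 from congrFun h0 b.2, mul_zero])] at h4
      exact zero_ne_one h4
    · by_contra hcon
      push Not at hcon
      rw [Finset.sum_eq_zero (fun b _ => by rw [hcon b.1, mul_zero, zero_mul])] at h4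
      exact zero_ne_one h4
  have hXv' : ∀ w ∈ W', cv' w ∈ X := by
    intro w hw
    obtain ⟨-, -, -, -, -, -, h7, -, h9, h10, -⟩ := (hmem w).mp hw
    refine hXof _ (ne_zero_of_dot h7) h9 ?_
    by_contra hcon
    push Not at hcon
    rw [Finset.sum_eq_zero (fun b _ => by rw [hcon b, mul_zero])] at h10
    exact zero_ne_one h10
  have hXv : ∀ w ∈ W', cv w ∈ X := by
    intro w hw
    obtain ⟨h1, -, -, h4, h5, -⟩ := (hmem w).mp hw
    have h6 : outer (cv w) (cn w) = fun b => MvPolynomial.eval (cw w) (e b) := funext (fun b => h5 b)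
    obtain ⟨v₁, η₁, hv₁, k1, k2, k3⟩ := exists_outer hp hq (he _ h1)
    refine ⟨ne_zero_of_dot h4, ?_⟩
    rw [outer_inj (ne_zero_of_dot h4) hv₁ h4 (h6.trans k3)]
    exact k1
  let e' : T × T → MvPolynomial J' ℂ := fun b =>
    MvPolynomial.X (Sum.inr (Sum.inr (Sum.inr (Sum.inr (Sum.inr (Sum.inr (Sum.inr (Sum.inl b.1))))))))
    * MvPolynomial.X (Sum.inr (Sum.inr (Sum.inr (Sum.inr (Sum.inr (Sum.inr (Sum.inr (Sum.inr
        (Sum.inl b.2)))))))))
  have he'ev : ∀ (w : J' → ℂ), (fun l => MvPolynomial.eval w (e' l)) = outer (cv' w) (cn' w) :=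
    fun w => funext (fun l => by
      simp only [e', map_mul, MvPolynomial.eval_X]
      rfl)
  have he' : ∀ w ∈ W', (fun i => MvPolynomial.eval w (e' i)) ∈ QA (PT p) (QT q) := by
    intro w hw
    rw [he'ev]
    exact outer_mem hp hq ((hmem w).mp hw).2.2.2.2.2.2.1 (hXv' w hw).choose_spec
  have hfinJ : Finite J' := inferInstance
  refine ⟨J', hfinJ, W', hW', e', he', ?_, ?_⟩
  · rintro M' ⟨c, g, P, u, R, P', u', R', v, η, v', η', h, B, h2, h3, h4, hvA, h6, h7, rfl, h8, h9,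
      h10, h11⟩
    obtain ⟨w, hw, hwe⟩ := hcov _ hvA
    let w' : J' → ℂ := Sum.elim w (Sum.elim (fun a => c a.1 a.2) (Sum.elim (fun a => g a.1 a.2)
      (Sum.elim (Sum.elim (fun a => P a.1 a.2) (Sum.elim u (fun a => R a.1 a.2)))
      (Sum.elim (Sum.elim (fun a => P' a.1 a.2) (Sum.elim u' (fun a => R' a.1 a.2)))
      (Sum.elim v (Sum.elim η (Sum.elim v' (Sum.elim η' (Sum.elim h
        (fun a => B a.1 a.2))))))))))
    exact ⟨w', (hmem w').mpr ⟨hw, h2, h3, h4, fun b => (congrFun hwe b).symm, h6, h7, h8, h9, h10,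
      h11⟩,
      he'ev w'⟩
  · intro w
    have hcoord : ∀ j : J', Continuous (fun w : W' => w.1 j) := fun j =>
      (continuous_apply j).comp continuous_subtype_val
    let pr : C(W', W) := ⟨fun w => ⟨cw w.1, ((hmem w.1).mp w.2).1⟩,
      Continuous.subtype_mk (continuous_pi (fun j => hcoord _)) _⟩
    obtain ⟨b, H, hH0, hH1⟩ := arc_homotopy (X := X) κ.a (W := W') (c := fun w => cc w.1)
      (P := fun w => cP w.1) (u := fun w => cu w.1) (R := fun w => cR w.1)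
      (x := fun w => cv w.1) (fun w => hXt w.1 w.2) (fun w => hXv w.1 w.2)
      (fun j i => hcoord _) (fun j => hcoord _) (fun l i => hcoord _) (fun l => hcoord _)
      (fun w => ((hmem w.1).mp w.2).2.2.2.2.2.1)
    obtain ⟨b', H', hH'0, hH'1⟩ := arc_homotopy (X := X) κ.a' (W := W') (c := fun w => cc w.1)
      (P := fun w => cP' w.1) (u := fun w => cu' w.1) (R := fun w => cR' w.1)
      (x := fun w => cv' w.1) (fun w => hXt w.1 w.2) (fun w => hXv' w.1 w.2)
      (fun j i => hcoord _) (fun j => hcoord _) (fun l i => hcoord _) (fun l => hcoord _)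
      (fun w => ((hmem w.1).mp w.2).2.2.2.2.2.2.2.1)
    let Φ₀ : C(W' × TT κ.k, X) := ⟨fun a => ⟨fun l => lev (cc a.1.1 l) a.2.1,
      hXt a.1.1 a.1.2 a.2.1 a.2.2⟩, by
      refine Continuous.subtype_mk (continuous_pi (fun l => ?_)) _
      exact continuous_lev.comp (Continuous.prodMk
        (continuous_pi (fun α => (hcoord _).comp continuous_fst)) continuous_snd)⟩
    let Φ : C(W' × TT κ.k, QP p q) := π.comp Φ₀
    have hC : ∀ y : TT κ.k, 𝒱.C (FundamentalGroup.map (slice Φ w) y).range := by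
      intro y
      have h11 := ((hmem w.1).mp w.2).2.2.2.2.2.2.2.2.2.2
      have hB : ∀ z : Fin κ.k → ℂ, (fun l => bev (cB w.1 l) z) ∈ X := by
        intro z
        obtain ⟨t, ht, rfl⟩ := jouk_surj z
        have h12 : (fun l => lev (cc w.1 l) t) =
            t j0 • fun l => bev (cB w.1 l) (fun j => t j + (t j)⁻¹) :=
          funext (fun l => h11 t ht l)
        obtain ⟨hv, hvX⟩ := hXt w.1 w.2 t ht
        have hne : (fun l => bev (cB w.1 l) (fun j => t j + (t j)⁻¹)) ≠ 0 := by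
          intro h0
          apply hv
          rw [h12, h0, smul_zero]
        refine ⟨hne, ?_⟩
        have h13 : CP.mk _ hne = CP.mk _ hv := (mk_eq_mk.mpr ⟨t j0, ht j0, h12⟩).symm
        rw [h13]
        exact hvX
      let Ψ : C(Fin κ.k → ℂ, QP p q) := π.comp ⟨fun z => ⟨fun l => bev (cB w.1 l) z, hB z⟩,
        Continuous.subtype_mk (continuous_pi (fun l =>
          continuous_bev.comp (Continuous.prodMk continuous_const continuous_id))) _⟩
      let Jk : C(TT κ.k, Fin κ.k → ℂ) := ⟨fun t j => t.1 j + (t.1 j)⁻¹,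
        continuous_pi (fun j => ((continuous_apply j).comp continuous_subtype_val).add
          (((continuous_apply j).comp continuous_subtype_val).inv₀ (fun t => t.2 j)))⟩
      have hΨ : slice Φ w = Ψ.comp Jk := by
        ext1 t
        show π _ = π _
        refine Subtype.ext ?_
        exact mk_eq_mk.mpr ⟨t.1 j0, t.2 j0, funext (fun l => h11 t.1 t.2 l)⟩
      have := subsingleton_pi1 (Jk y)
      have h12 : ∀ g, FundamentalGroup.map (slice Φ w) y g = 1 := by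
        intro g
        obtain ⟨P, rfl⟩ := Path.Homotopic.Quotient.mk_surjective g
        rw [hΨ]
        have h13 : FundamentalGroup.map (Ψ.comp Jk) y (Path.Homotopic.Quotient.mk P) =
            FundamentalGroup.map Ψ (Jk y) (FundamentalGroup.map Jk y
              (Path.Homotopic.Quotient.mk P)) := rfl
        rw [h13, Subsingleton.elim (FundamentalGroup.map Jk y (Path.Homotopic.Quotient.mk P)) 1,
          map_one]
      exact 𝒱.range_of_ker _ (1 : _ →* Unit) (fun g _ => h12 g) 𝒱.triv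
    have hpr : ∀ w, (π.comp H) (w, 0) = ((ρ.comp (pmap e he)).comp pr) w := by
      intro w
      obtain ⟨h1, -, -, h4, h5, -⟩ := (hmem w.1).mp w.2
      have h6 : outer (cv w.1) (cn w.1) = fun b => MvPolynomial.eval (cw w.1) (e b) :=
        funext (fun b => h5 b)
      have h7 : H (w, 0) = ⟨cv w.1, hXv w.1 w.2⟩ := Subtype.ext (hH0 w)
      have h8 : pmap e he (pr w) = ⟨outer (cv w.1) (cn w.1), by rw [h6]; exact he _ h1⟩ :=
        Subtype.ext h6.symm
      show π (H (w, 0)) = ρ (pmap e he (pr w))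
      rw [h7, h8]
      refine Subtype.ext ?_
      rw [hρ _ _ (ne_zero_of_dot h4) _ h4]
      rfl
    have hpr' : ∀ w, (π.comp H') (w, 0) = (ρ.comp (pmap e' he')) w := by
      intro w
      have h4 := ((hmem w.1).mp w.2).2.2.2.2.2.2.1
      have h7 : H' (w, 0) = ⟨cv' w.1, hXv' w.1 w.2⟩ := Subtype.ext (hH'0 w)
      have h8 : pmap e' he' w = ⟨outer (cv' w.1) (cn' w.1), by
          rw [← he'ev]; exact he' _ w.2⟩ := Subtype.ext (he'ev w.1)
      show π (H' (w, 0)) = ρ (pmap e' he' w)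
      rw [h7, h8]
      refine Subtype.ext ?_
      rw [hρ _ _ (ne_zero_of_dot h4) _ h4]
      rfl
    refine 𝒱.range_of_ker _ ((((FundamentalGroup.map (ρ.comp (pmap e he)) (pr w)).rangeRestrict.comp
      (FundamentalGroup.map pr w)).prod
      (((FundamentalGroup.map (slice Φ w) (b w)).rangeRestrict.comp
        (FundamentalGroup.map b w)).prod
      ((FundamentalGroup.map (slice Φ w) (b' w)).rangeRestrict.comp
        (FundamentalGroup.map b' w))))) (fun g hg => ?_)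
      (𝒱.prod (hkill (pr w)) (𝒱.prod (hC _) (hC _)))
    obtain ⟨P, rfl⟩ := Path.Homotopic.Quotient.mk_surjective g
    have hg1 := congrArg (fun z => z.1.1) hg
    have hg2 := congrArg (fun z => z.2.1.1) hg
    have hg3 := congrArg (fun z => z.2.2.1) hg
    have h1 : Path.Homotopic.Quotient.map (Path.Homotopic.Quotient.mk P)
        ((ρ.comp (pmap e he)).comp pr) = Path.Homotopic.Quotient.refl _ := by
      rw [Path.Homotopic.Quotient.map_comp]
      exact hg1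
    have h2 := null_transfer (π.comp H) (s := 0) (s' := 1) (Path.Homotopic.Quotient.mk P)
      ((ρ.comp (pmap e he)).comp pr) (Φ.comp ((ContinuousMap.id W').prodMk b))
      hpr (fun w => congrArg π (Subtype.ext (hH1 w))) h1
    have h3 := step Φ b b' (Path.Homotopic.Quotient.mk P)
      (PathConnectedSpace.somePath _ _) h2 hg2 hg3
    exact null_transfer (π.comp H') (s := 1) (s' := 0) (Path.Homotopic.Quotient.mk P)
      (Φ.comp ((ContinuousMap.id W').prodMk b')) (ρ.comp (pmap e' he'))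
      (fun w => congrArg π (Subtype.ext (hH'1 w))) hpr' h3

end

end Pool.Agent.X316.ZP
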