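import Mathlib

/-!
Algebraic independence of all derivatives over differential rings of finite type.
-/

set_option autoImplicit false

open Polynomial

namespace Pool.Agent.X316.ZP

variable {K : Type} [Field K] [Algebra ℂ K]

theorem D_sum (D : Derivation ℂ K K) {R : Subalgebra ℂ K} (x : K) (P : Polynomial R) :
    D (aeval x P) = (P.sum fun i c => D (c : K) * x ^ i) + aeval x (derivative P) * D x := by
  induction P using Polynomial.induction_on' with
  | add P Q hP hQ =>
    rw [map_add, map_add, hP, hQ, derivative_add, map_add, Polynomial.sum_add_index]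
    · ring
    · intro i
      rw [show ((0 : R) : K) = 0 from rfl, map_zero, zero_mul]
    · intro i a b
      rw [show ((a + b : R) : K) = (a : K) + b from rfl, map_add, add_mul]
  | monomial n c =>
    rw [Polynomial.sum_monomial_index, derivative_monomial, aeval_monomial, aeval_monomial,
      Derivation.leibniz, Derivation.leibniz_pow]
    · change (c : K) • (n • x ^ (n - 1) • D x) + x ^ n • D (c : K) =
        D (c : K) * x ^ n + ((c * (n : R) : R) : K) * x ^ (n - 1) * D x
      push_cast
      simp only [smul_eq_mul, nsmul_eq_mul]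
      ring
    · rw [show ((0 : R) : K) = 0 from rfl, map_zero, zero_mul]

/-- the elements which are algebraic over `R` -/
abbrev acl (R : Subalgebra ℂ K) : Subalgebra R K := Subalgebra.algebraicClosure R K

theorem mem_acl {R : Subalgebra ℂ K} {x : K} : x ∈ acl R ↔ IsAlgebraic R x := Iff.rfl

theorem acl_of_mem {R : Subalgebra ℂ K} {x : K} (h : x ∈ R) : x ∈ acl R :=
  isAlgebraic_algebraMap (⟨x, h⟩ : R)

theorem D_adjoin (D : Derivation ℂ K K) {G : Set K}
    (h : ∀ g ∈ G, D g ∈ acl (Algebra.adjoin ℂ G)) : ∀ r ∈ Algebra.adjoin ℂ G,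
    D r ∈ acl (Algebra.adjoin ℂ G) := by
  intro r hr
  induction hr using Algebra.adjoin_induction with
  | mem g hg => exact h g hg
  | algebraMap c =>
    rw [Derivation.map_algebraMap]
    exact Subalgebra.zero_mem _
  | add a b _ _ ha hb =>
    rw [map_add]
    exact Subalgebra.add_mem _ ha hb
  | mul a b ha' hb' ha hb =>
    rw [Derivation.leibniz]
    exact Subalgebra.add_mem _ (Subalgebra.mul_mem _ (acl_of_mem ha') hb)
      (Subalgebra.mul_mem _ (acl_of_mem hb') ha)

/-- derivations and algebraic elements -/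
theorem D_acl (D : Derivation ℂ K K) {R : Subalgebra ℂ K} (h : ∀ r ∈ R, D r ∈ acl R) {x : K}
    (hx : x ∈ acl R) : D x ∈ acl R := by
  classical
  have hx' : IsAlgebraic R x := hx
  -- a polynomial of minimal degree
  have hex : ∃ n : ℕ, ∃ P : Polynomial R, P ≠ 0 ∧ aeval x P = 0 ∧ P.natDegree = n := by
    obtain ⟨P, hP0, hP⟩ := hx'
    exact ⟨_, P, hP0, hP, rfl⟩
  obtain ⟨P, hP0, hP, hn⟩ := Nat.find_spec hex
  have hmin : ∀ Q : Polynomial R, Q ≠ 0 → aeval x Q = 0 → P.natDegree ≤ Q.natDegree := by
    intro Q h1 h2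
    rw [hn]
    exact Nat.find_min' hex ⟨Q, h1, h2, rfl⟩
  have hdeg : 0 < P.natDegree := by
    rw [Nat.pos_iff_ne_zero]
    intro h0
    rw [Polynomial.eq_C_of_natDegree_eq_zero h0] at hP hP0
    rw [aeval_C] at hP
    apply hP0
    have h1 : P.coeff 0 = 0 := Subtype.ext hP
    rw [h1, C_0]
  have hKc : CharZero K := charZero_of_injective_algebraMap (algebraMap ℂ K).injective
  have hRc : CharZero R := charZero_of_injective_algebraMap (algebraMap ℂ R).injective
  have hd0 : derivative P ≠ 0 := by
    intro h0
    have h1 := (Polynomial.derivative_eq_zero).1 h0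
    omega
  have hd : aeval x (derivative P) ≠ 0 := by
    intro h0
    have h1 := hmin _ hd0 h0
    have h2 := Polynomial.natDegree_derivative_lt (p := P) (by omega)
    omega
  have h1 := D_sum D x P
  rw [hP, map_zero] at h1
  have h2 : D x = -(P.sum fun i c => D (c : K) * x ^ i) * (aeval x (derivative P))⁻¹ := by
    rw [← div_eq_mul_inv, eq_div_iff hd]
    linear_combination -h1
  have hpow : ∀ i : ℕ, x ^ i ∈ acl R := fun i => Subalgebra.pow_mem _ hx i
  have h3 : (P.sum fun i c => D (c : K) * x ^ i) ∈ acl R := by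
    rw [Polynomial.sum_def]
    exact Subalgebra.sum_mem _ fun i _ => Subalgebra.mul_mem _ (h _ (P.coeff i).2) (hpow i)
  have h4 : aeval x (derivative P) ∈ acl R := by
    rw [Polynomial.aeval_eq_sum_range]
    refine Subalgebra.sum_mem _ fun i _ => ?_
    rw [Algebra.smul_def]
    exact Subalgebra.mul_mem _ (acl_of_mem (Subtype.property _)) (hpow i)
  rw [h2]
  exact Subalgebra.mul_mem _ (Subalgebra.neg_mem _ h3) (IsAlgebraic.inv (mem_acl.1 h4))

/-- change of the ring of coefficients -/
theorem alg_mono {R1 : Type} [CommRing R1] [Algebra R1 K] {R2 : Type} [CommRing R2] [Algebra R2 K]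
    (h2 : Function.Injective (algebraMap R2 K))
    (h : ∀ a : R1, ∃ b : R2, algebraMap R2 K b = algebraMap R1 K a) {x : K}
    (hx : IsAlgebraic R1 x) (h1 : Function.Injective (algebraMap R1 K)) : IsAlgebraic R2 x := by
  choose g hg using h
  let φ : R1 →+* R2 :=
    { toFun := g
      map_one' := h2 (by rw [hg, map_one, map_one])
      map_mul' := fun a b => h2 (by rw [hg, map_mul, map_mul, hg, hg])
      map_zero' := h2 (by rw [hg, map_zero, map_zero])
      map_add' := fun a b => h2 (by rw [hg, map_add, map_add, hg, hg]) }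
  have hφ : Function.Injective φ := fun a b hab => h1 (by
    rw [← hg, ← hg]
    exact congrArg _ hab)
  obtain ⟨P, hP0, hP⟩ := hx
  refine ⟨P.map φ, (Polynomial.map_ne_zero_iff hφ).2 hP0, ?_⟩
  rw [aeval_def, Polynomial.eval₂_map]
  rw [aeval_def] at hP
  have h3 : (algebraMap R2 K).comp φ = algebraMap R1 K := RingHom.ext fun a => hg a
  rw [h3, hP]

/-- the count -/
theorem count {ι : Type} {x : ι × ℕ → K} (hx : AlgebraicIndependent ℂ x) (j0 : ι) {S' : Set K}
    (hS : S'.Finite) (h : ∀ i, IsAlgebraic (Algebra.adjoin ℂ (x '' {v | v.1 ≠ j0} ∪ S'))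
      (x (j0, i))) : False := by
  classical
  let B : Subalgebra ℂ K := Algebra.adjoin ℂ (x '' {v | v.1 ≠ j0})
  have h1 : AlgebraicIndependent B fun i : {v : ι × ℕ | v.1 = j0} => x i := by
    apply hx.adjoin_of_disjoint
    rw [Set.disjoint_left]
    intro v hv hv'
    exact hv hv'
  have h2 : AlgebraicIndependent B fun i : ℕ => x (j0, i) := by
    refine h1.comp (fun i : ℕ => (⟨(j0, i), rfl⟩ : {v : ι × ℕ | v.1 = j0})) ?_
    intro a b hab
    exact congrArg (fun v : {v : ι × ℕ | v.1 = j0} => v.1.2) hab
  have h3 : (AlgebraicIndependent.matroid B K).Indep (Set.range fun i : ℕ => x (j0, i)) :=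
    h2.to_subtype_range
  have h4 : (Set.range fun i : ℕ => x (j0, i)) ⊆ (AlgebraicIndependent.matroid B K).closure S' := by
    rw [AlgebraicIndependent.matroid_closure_eq]
    rintro _ ⟨i, rfl⟩
    change IsAlgebraic (Algebra.adjoin B S') (x (j0, i))
    refine alg_mono Subtype.val_injective (fun a => ?_) (h i) Subtype.val_injective
    have h5 : ∀ b ∈ Algebra.adjoin ℂ (x '' {v | v.1 ≠ j0} ∪ S'), b ∈ Algebra.adjoin B S' := by
      intro b hb
      induction hb using Algebra.adjoin_induction with
      | mem b hb =>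
        rcases hb with hb | hb
        · exact (Algebra.adjoin B S').algebraMap_mem ⟨b, Algebra.subset_adjoin hb⟩
        · exact Algebra.subset_adjoin hb
      | algebraMap c =>
        exact (Algebra.adjoin B S').algebraMap_mem (algebraMap ℂ B c)
      | add a b _ _ ha hb => exact Subalgebra.add_mem _ ha hb
      | mul a b _ _ ha hb => exact Subalgebra.mul_mem _ ha hb
    exact ⟨⟨_, h5 _ a.2⟩, rfl⟩
  have h5 := h3.encard_le_eRk_of_subset h4
  rw [Matroid.eRk_closure_eq] at h5
  have h6 := h5.trans (Matroid.eRk_le_encard _ _)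
  have h7 : (Set.range fun i : ℕ => x (j0, i)).Infinite := Set.infinite_range_of_injective
    h2.injective
  rw [h7.encard_eq] at h6
  exact absurd (top_le_iff.1 h6) (Set.encard_ne_top_iff.2 hS)

/-- **Independence over differential rings of finite type.** -/
theorem indep_over (D : Derivation ℂ K K) {ι : Type} {x : ι × ℕ → K}
    (hx : AlgebraicIndependent ℂ x) (hD : ∀ j i, D (x (j, i)) = x (j, i + 1)) {S : Set K}
    (hS : S.Finite) (hDS : ∀ s ∈ S, D s ∈ Algebra.adjoin ℂ S) :
    AlgebraicIndependent (Algebra.adjoin ℂ S) x := by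
  classical
  have key : ∀ (n : ℕ) (T : Finset (ι × ℕ)), T.card = n →
      AlgebraicIndepOn (Algebra.adjoin ℂ S) x (T : Set (ι × ℕ)) := by
    intro n
    induction n with
    | zero =>
      intro T hT
      rw [Finset.card_eq_zero] at hT
      subst hT
      rw [Finset.coe_empty]
      exact algebraicIndependent_empty_type_iff.2 Subtype.val_injective
    | succ n ih =>
      intro T hT
      have hne : T.Nonempty := by
        rw [← Finset.card_pos]
        omega
      obtain ⟨v1, hv1⟩ := hne
      obtain ⟨⟨j0, h⟩, hv0, hmax⟩ := Finset.exists_max_image (T.filter fun v => v.1 = v1.1)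
        (fun v => v.2) ⟨v1, Finset.mem_filter.2 ⟨hv1, rfl⟩⟩
      rw [Finset.mem_filter] at hv0
      obtain ⟨hv0T, hv01⟩ := hv0
      have hT' : ∀ v ∈ T.erase (j0, h), v.1 ≠ j0 ∨ v.2 < h := by
        intro v hv
        by_contra hcon
        push Not at hcon
        obtain ⟨hc1, hc2⟩ := hcon
        rw [Finset.mem_erase] at hv
        have h1 := hmax v (Finset.mem_filter.2 ⟨hv.2, hc1.trans hv01⟩)
        exact hv.1 (Prod.ext hc1 (le_antisymm h1 hc2))
      have hcard : (T.erase (j0, h)).card = n := by
        rw [Finset.card_erase_of_mem hv0T, hT]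
        omega
      have h1 := ih _ hcard
      have h2 : (T : Set (ι × ℕ)) = insert (j0, h) ((T.erase (j0, h) : Finset (ι × ℕ)) :
          Set (ι × ℕ)) := by
        rw [← Finset.coe_insert, Finset.insert_erase hv0T]
      rw [h2]
      refine AlgebraicIndepOn.insert h1 fun halg => ?_
      -- the large ring
      let G : Set K := S ∪ x '' {v | v.1 ≠ j0 ∨ v.2 < h}
      let R : Subalgebra ℂ K := Algebra.adjoin ℂ G
      have hxG : ∀ v : ι × ℕ, (v.1 ≠ j0 ∨ v.2 < h) → x v ∈ R := fun v hv =>
        Algebra.subset_adjoin (Or.inr ⟨v, hv, rfl⟩)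
      have hSR : Algebra.adjoin ℂ S ≤ R := Algebra.adjoin_mono Set.subset_union_left
      have hx0 : x (j0, h) ∈ acl R := by
        refine alg_mono Subtype.val_injective (fun a => ?_) halg Subtype.val_injective
        refine ⟨⟨a.1, ?_⟩, rfl⟩
        have h3 := a.2
        revert h3
        generalize (a : K) = b
        intro h3
        induction h3 using Algebra.adjoin_induction with
        | mem b hb =>
          obtain ⟨v, hv, rfl⟩ := hb
          exact hxG v (hT' v (Finset.mem_coe.1 hv))
        | algebraMap c => exact hSR c.2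
        | add a b _ _ ha hb => exact R.add_mem ha hb
        | mul a b _ _ ha hb => exact R.mul_mem ha hb
      have hDG : ∀ g ∈ G, D g ∈ acl R := by
        rintro g (hg | ⟨⟨j, i⟩, hv, rfl⟩)
        · exact acl_of_mem (hSR (hDS g hg))
        · rw [hD]
          rcases eq_or_ne j j0 with rfl | hj
          · have hv' : i < h := hv.resolve_left fun h => h rfl
            rcases Nat.lt_or_ge (i + 1) h with h3 | h3
            · exact acl_of_mem (hxG _ (Or.inr h3))
            · have h4 : i + 1 = h := by omega
              rw [h4]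
              exact hx0
          · exact acl_of_mem (hxG _ (Or.inl hj))
      have hall : ∀ i, x (j0, i) ∈ acl R := by
        intro i
        rcases Nat.lt_or_ge i h with h3 | h3
        · exact acl_of_mem (hxG _ (Or.inr h3))
        · obtain ⟨m, rfl⟩ := Nat.exists_eq_add_of_le h3
          clear h3
          induction m with
          | zero => exact hx0
          | succ m ih2 =>
            have h4 := D_acl D (D_adjoin D hDG) ih2
            rw [hD] at h4
            exact h4
      refine count hx j0 (S' := S ∪ x '' {v | v.1 = j0 ∧ v.2 < h}) (hS.union ?_) fun i => ?_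
      · refine Set.Finite.image _ ?_
        refine ((Set.finite_lt_nat h).image fun i => (j0, i)).subset ?_
        rintro ⟨j, i⟩ ⟨rfl, hi⟩
        exact ⟨i, hi, rfl⟩
      · refine alg_mono Subtype.val_injective (fun a => ⟨⟨a.1, ?_⟩, rfl⟩) (mem_acl.1 (hall i))
          Subtype.val_injective
        refine Algebra.adjoin_mono ?_ a.2
        rintro g (hg | ⟨v, hv, rfl⟩)
        · exact Or.inr (Or.inl hg)
        · rcases eq_or_ne v.1 j0 with h5 | h5
          · exact Or.inr (Or.inr ⟨v, ⟨h5, hv.resolve_left fun h => h h5⟩, rfl⟩)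
          · exact Or.inl ⟨v, h5, rfl⟩
  apply algebraicIndependent_of_finite_type
  intro t ht
  have h1 := key _ ht.toFinset rfl
  rwa [Set.Finite.coe_toFinset] at h1

end Pool.Agent.X316.ZP
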