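import Pool.Agent.X316.ZP.Mix
import Pool.Agent.X316.ZG.Zeta

/-!
Fundamental groups of quasi-projective varieties which are connected by chains of Zariski closures
of curves given by exponential polynomials and the derivatives of universal functions.
-/

set_option autoImplicit false

open Filter Topology Set MvPolynomial

namespace Pool.Agent.X316.ZP

open Pool.Agent.X316.ZG
open Pool.Agent.Y193.CS Pool.Agent.Y193.FG

section

variable {n : ℕ} {ι κ : Type} [Fintype κ]

/-- The meromorphic curve `z ↦ (f 0 z : ... : f n z)` in the quasi-projective variety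
`X = {p i = 0 for all i, q j ≠ 0 for some j}`: its homogeneous coordinates are in the ring of the
polynomials in exponential polynomials and the derivatives of the functions of the family `u`, and
the functions `q j (f) * f l` generate the unit ideal of this ring. -/
structure UCurve (p : ι → MvPolynomial (Fin (n + 1)) ℂ) (q : κ → MvPolynomial (Fin (n + 1)) ℂ)
    {τ : Type} (u : τ → ℂ → ℂ) (f : Fin (n + 1) → ℂ → ℂ) : Prop where
  mem : ∀ l, InRing u (f l)
  rel : ∀ i, ∀ᶠ z in codiscrete ℂ, eval (fun l => f l z) (p i) = 0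
  cert : ∃ g : κ → Fin (n + 1) → ℂ → ℂ, (∀ j l, InRing u (g j l)) ∧
    ∀ᶠ z in codiscrete ℂ, ∑ j, ∑ l, g j l z * eval (fun i => f i z) (q j) * f l z = 1

/-- The point `x` of `P^n` is in the Zariski closure of the curve `z ↦ (f 0 z : ... : f n z)`. -/
def InCl (f : Fin (n + 1) → ℂ → ℂ) (x : CP n) : Prop :=
  ∀ (G : MvPolynomial (Fin (n + 1)) ℂ) (d : ℕ), G.IsHomogeneous d →
    (∀ᶠ z in codiscrete ℂ, eval (fun l => f l z) G = 0) →
    ∀ (v : Fin (n + 1) → ℂ) (hv : v ≠ 0), CP.mk v hv = x → eval v G = 0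

/-- `x` and `x'` are points of `X` in the Zariski closure of a curve as above, for some jointly
universal family. -/
def ULinked (p : ι → MvPolynomial (Fin (n + 1)) ℂ) (q : κ → MvPolynomial (Fin (n + 1)) ℂ)
    (x x' : CP n) : Prop :=
  x ∈ QP p q ∧ x' ∈ QP p q ∧ ∃ (τ : Type) (u : τ → ℂ → ℂ) (f : Fin (n + 1) → ℂ → ℂ),
    JointlyUniversal u ∧ UCurve p q u f ∧ InCl f x ∧ InCl f x'

variable {p : ι → MvPolynomial (Fin (n + 1)) ℂ} {q : κ → MvPolynomial (Fin (n + 1)) ℂ}

theorem plink_of_univ (hp : ∀ i, ∃ d, (p i).IsHomogeneous d)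
    (hq : ∀ j, ∃ d, (q j).IsHomogeneous d) {x x' : CP n} (h : ULinked p q x x')
    {v v' : Fin (n + 1) → ℂ} (hv : v ≠ 0) (hv' : v' ≠ 0) (hx : CP.mk v hv = x)
    (hx' : CP.mk v' hv' = x') : PLink p q v v' := by
  classical
  obtain ⟨-, -, τ, u, f, hu, ⟨hf, hrel, g, hg, hcert⟩, hcl, hcl'⟩ := h
  obtain ⟨k, F₀, hF₀⟩ := mix_closure hu (I := Fin (n + 1) ⊕ (κ × Fin (n + 1)))
    (Sum.elim f (fun b => g b.1 b.2)) (by
      rintro (l | b)
      · exact hf l
      · exact hg b.1 b.2)
  refine plink_of_torus hp hq (fun l => F₀ (Sum.inl l)) (fun b => F₀ (Sum.inr b)) (fun t i => ?_)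
    (fun t => ?_) (fun G d hGd hG => ?_)
  · have h1 := (hF₀ (rename Sum.inl (p i))).1 (by
      filter_upwards [hrel i] with z hz
      rw [eval_rename]
      exact hz) t
    rw [eval_rename] at h1
    exact h1
  · have h1 := (hF₀ ((∑ b, X (Sum.inr b) * rename Sum.inl (q b.1) *
      X (Sum.inl b.2)) - 1)).1 (by
      filter_upwards [hcert] with z hz
      rw [map_sub, map_one, map_sum, sub_eq_zero, ← hz, Fintype.sum_prod_type]
      refine Finset.sum_congr rfl (fun j _ => Finset.sum_congr rfl (fun l _ => ?_))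
      rw [map_mul, map_mul, eval_X, eval_X, eval_rename]
      rfl) t
    rw [map_sub, map_one, map_sum, sub_eq_zero] at h1
    rw [← h1]
    refine Finset.sum_congr rfl (fun b _ => ?_)
    rw [map_mul, map_mul, eval_X, eval_X, eval_rename]
    rfl
  · have h1 : ∀ᶠ z in codiscrete ℂ, eval (fun l => f l z) G = 0 := by
      have h2 := (hF₀ (rename Sum.inl G)).2 fun t => by
        rw [eval_rename]
        exact hG t
      filter_upwards [h2] with z hz
      rw [eval_rename] at hz
      exact hz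
    exact ⟨hcl G d hGd h1 v hv hx, hcl' G d hGd h1 v' hv' hx'⟩

/-- **Fundamental groups.** -/
theorem main_univ (hp : ∀ i, ∃ d, (p i).IsHomogeneous d)
    (hq : ∀ j, ∃ d, (q j).IsHomogeneous d) (hs : IsSmooth (QP p q)) (hc : IsConnected (QP p q))
    {x₀ : CP n} (hx₀ : x₀ ∈ QP p q)
    (hthin : ¬ IsThin (QP p q) {x | Relation.ReflTransGen (ULinked p q) x₀ x})
    (x : QP p q) : VirtuallyAbelian (FundamentalGroup (QP p q) x) := by
  obtain ⟨H, hH, hab⟩ := main_links hp hq hs hc
    (fun _ _ h => ⟨h.1, h.2.1, fun v v' hv hv' hx hx' => plink_of_univ hp hq h hv hv' hx hx'⟩)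
    hx₀ hthin x
  exact ⟨H, hH, fun a ha b hb => congrArg Subtype.val (hab ⟨a, ha⟩ ⟨b, hb⟩)⟩

end

end Pool.Agent.X316.ZP
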