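import Pool.Agent.X316.ZP.GoodA
import Pool.Agent.X316.ZU.Lin2

/-!
Fundamental groups of quasi-projective varieties which are connected by chains of Zariski closures
of images of affine spaces.
-/

set_option autoImplicit false

open Filter Topology Set MvPolynomial

namespace Pool.Agent.X316.ZP

open Pool.Agent.Y193.CS Pool.Agent.Y193.FG

section

variable {n : ℕ} {ι μ : Type} [Fintype μ]

/-- the points with homogeneous coordinates `v` and `v'` are in the closure of the image of an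
affine space -/
def PLinkA (p : ι → MvPolynomial (Fin (n + 1)) ℂ) (q : μ → MvPolynomial (Fin (n + 1)) ℂ)
    (v v' : Fin (n + 1) → ℂ) : Prop :=
  ∃ (m : ℕ) (F : Fin (n + 1) → MvPolynomial (Fin m) ℂ)
    (g : μ × Fin (n + 1) → MvPolynomial (Fin m) ℂ),
    (∀ (y : Fin m → ℂ) i, eval (fun l => eval y (F l)) (p i) = 0) ∧
    (∀ y : Fin m → ℂ, ∑ b, eval y (g b) * eval (fun l => eval y (F l)) (q b.1) *
      eval y (F b.2) = 1) ∧
    ∀ (G : MvPolynomial (Fin (n + 1)) ℂ) (d : ℕ), G.IsHomogeneous d →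
      (∀ y : Fin m → ℂ, eval (fun l => eval y (F l)) G = 0) → eval v G = 0 ∧ eval v' G = 0

variable {p : ι → MvPolynomial (Fin (n + 1)) ℂ} {q : μ → MvPolynomial (Fin (n + 1)) ℂ}

theorem plinkA_refl (hp : ∀ i, ∃ d, (p i).IsHomogeneous d)
    (hq : ∀ j, ∃ d, (q j).IsHomogeneous d) {v : Fin (n + 1) → ℂ} {hv : v ≠ 0}
    (hX : CP.mk v hv ∈ QP p q) : PLinkA p q v v := by
  classical
  obtain ⟨hp', j, hj⟩ := (mem_QP hp hq).mp hX
  obtain ⟨l, hl⟩ := Function.ne_iff.mp hv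
  have hF : ∀ y : Fin 0 → ℂ, (fun l => eval y (C (v l) : MvPolynomial (Fin 0) ℂ)) = v := fun t =>
    funext (fun l => eval_C _)
  refine ⟨0, fun l => C (v l), Pi.single (j, l) (C (eval v (q j) * v l)⁻¹), fun y i => ?_,
    fun y => ?_, fun G d _ hG => ?_⟩
  · rw [hF]
    exact hp' i
  · rw [Finset.sum_eq_single (j, l)]
    · rw [hF, Pi.single_eq_same, eval_C, eval_C, mul_assoc]
      exact inv_mul_cancel₀ (mul_ne_zero hj hl)
    · intro b _ hb
      rw [Pi.single_eq_of_ne hb, map_zero, zero_mul, zero_mul]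
    · intro h
      exact absurd (Finset.mem_univ _) h
  · have := hG (fun j => j.elim0)
    rw [hF] at this
    exact ⟨this, this⟩

theorem step_of_plinkA (hp : ∀ i, ∃ d, (p i).IsHomogeneous d)
    (hq : ∀ j, ∃ d, (q j).IsHomogeneous d) {v v' η η' : Fin (n + 1) → ℂ} {hv' : v' ≠ 0}
    (h : PLinkA p q v v') (hX' : CP.mk v' hv' ∈ QP p q)
    {A : Set (Fin (n + 1) × Fin (n + 1) → ℂ)} (hA : outer v η ∈ A) (hd : ∑ i, v i * η i = 1)
    (hd' : ∑ i, v' i * η' i = 1) :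
    ∃ κ : (Σ κ : Code, ℕ × Fin κ.k), outer v' η' ∈ parcSetA p q κ.1 κ.2.1 κ.2.2 A := by
  classical
  obtain ⟨m, F, g, h1, h2, h3⟩ := h
  have hq' := hq
  choose dq hdq using hq'
  let JF : MvPolynomial (Fin m) ℂ →ₐ[ℂ] MvPolynomial (Fin (m + 1) ⊕ Fin (m + 1)) ℂ :=
    aeval (fun j => X (Sum.inl j.succ) + X (Sum.inr j.succ))
  let jt : TT (m + 1) → Fin m → ℂ := fun t j => t.1 j.succ + (t.1 j.succ)⁻¹
  have hJF : ∀ (t : TT (m + 1)) (P : MvPolynomial (Fin m) ℂ),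
      eval (fun i => wT (m + 1) i t) (JF P) = eval (jt t) P := by
    intro t P
    have h4 := MvPolynomial.comp_aeval_apply
      (f := (fun j => X (Sum.inl j.succ) + X (Sum.inr j.succ) :
        Fin m → MvPolynomial (Fin (m + 1) ⊕ Fin (m + 1)) ℂ))
      (aeval (fun i => wT (m + 1) i t) : MvPolynomial (Fin (m + 1) ⊕ Fin (m + 1)) ℂ →ₐ[ℂ] ℂ) P
    rw [aeval_eq_eval] at h4
    refine h4.trans ?_
    rw [aeval_eq_eval]
    congr 2
    funext j
    rw [map_add, eval_X, eval_X]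
    rfl
  let F' : Fin (n + 1) → MvPolynomial (Fin (m + 1) ⊕ Fin (m + 1)) ℂ := fun l =>
    X (Sum.inl 0) * JF (F l)
  let g' : μ × Fin (n + 1) → MvPolynomial (Fin (m + 1) ⊕ Fin (m + 1)) ℂ := fun b =>
    X (Sum.inr 0) ^ (dq b.1 + 1) * JF (g b)
  have hF' : ∀ t : TT (m + 1), (fun l => eval (fun i => wT (m + 1) i t) (F' l)) =
      t.1 0 • fun l => eval (jt t) (F l) := by
    intro t
    funext l
    change eval _ (X (Sum.inl 0) * JF (F l)) = _
    rw [map_mul, eval_X, hJF]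
    rfl
  obtain ⟨d₁, hd₁⟩ := exists_lev_fin F'
  obtain ⟨d₂, hd₂⟩ := exists_lev_fin g'
  obtain ⟨c, hc⟩ := hd₁ (max d₁ d₂) (le_max_left _ _)
  obtain ⟨g'', hg''⟩ := hd₂ (max d₁ d₂) (le_max_right _ _)
  obtain ⟨D, hD⟩ := exists_bev_fin fun l => rename Fin.succ (F l)
  obtain ⟨B, hB⟩ := hD D le_rfl
  have hfc : ∀ t : TT (m + 1), (fun l => lev (c l) t.1) = t.1 0 • fun l => eval (jt t) (F l) := by
    intro t
    rw [← hF' t]
    exact funext fun l => (hc l t).symm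
  have hjt : ∀ (y : Fin m → ℂ) (s : ℂ), s ≠ 0 → ∃ t : TT (m + 1), t.1 0 = s ∧ jt t = y := by
    intro y s hs
    obtain ⟨t, ht, hty⟩ := jouk_surj y
    refine ⟨⟨Fin.cons s t, fun j => ?_⟩, rfl, hty⟩
    refine Fin.cases ?_ (fun j => ?_) j
    · exact hs
    · exact ht j
  have h3' : ∀ G : MvPolynomial (Fin (n + 1)) ℂ,
      (∀ t ∈ TT (m + 1), eval (fun l => lev (c l) t) G = 0) → eval v G = 0 ∧ eval v' G = 0 := by
    intro G hG
    have h4 : ∀ (d : ℕ) (y : Fin m → ℂ), eval (fun l => eval y (F l))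
        (homogeneousComponent d G) = 0 := by
      intro d y
      refine eval_component (fun s hs => ?_) d
      obtain ⟨t, ht0, hty⟩ := hjt y s hs
      have h5 := hG t.1 t.2
      rw [hfc t, ht0, hty] at h5
      exact h5
    have h5 := fun d => h3 _ d (homogeneousComponent_isHomogeneous d G) (h4 d)
    rw [← sum_homogeneousComponent G, map_sum, map_sum]
    exact ⟨Finset.sum_eq_zero (fun d _ => (h5 d).1), Finset.sum_eq_zero (fun d _ => (h5 d).2)⟩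
  obtain ⟨a, e₁, he₁⟩ := exists_arc c v (fun G h0 => (h3' G h0).1)
  obtain ⟨a', e₂, he₂⟩ := exists_arc c v' (fun G h0 => (h3' G h0).2)
  obtain ⟨P, u, R, hA1⟩ := he₁ (max e₁ e₂) (max e₁ e₂) (le_max_left _ _) (le_max_left _ _)
  obtain ⟨P', u', R', hA2⟩ := he₂ (max e₁ e₂) (max e₁ e₂) (le_max_right _ _) (le_max_right _ _)
  obtain ⟨hp', j, hj⟩ := (mem_QP hp hq).mp hX'
  refine ⟨⟨⟨m + 1, max d₁ d₂, max e₁ e₂, max e₁ e₂, a, a'⟩, D, 0⟩, c, g'', P, u, R, P', u', R', v,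
    η, v', η', Pi.single j (eval v' (q j))⁻¹, B, fun t ht i => ?_, fun t ht => ?_, hd, hA, hA1,
    hd', rfl, hA2, hp', ?_, fun t ht l => ?_⟩
  · obtain ⟨d, hd⟩ := hp i
    have h4 := hfc ⟨t, ht⟩
    change (fun l => lev (c l) t) = _ at h4
    rw [h4, eval_smul' hd, h1, mul_zero]
  · have h4 := hfc ⟨t, ht⟩
    change (fun l => lev (c l) t) = _ at h4
    rw [h4, ← h2 (jt ⟨t, ht⟩)]
    refine Finset.sum_congr rfl (fun b _ => ?_)
    have h5 : lev (g'' b) t = (t 0)⁻¹ ^ (dq b.1 + 1) * eval (jt ⟨t, ht⟩) (g b) := by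
      have h6 := hg'' b ⟨t, ht⟩
      change eval _ (X (Sum.inr 0) ^ (dq b.1 + 1) * JF (g b)) = _ at h6
      rw [map_mul, map_pow, eval_X, hJF] at h6
      exact h6.symm
    have h6 : lev (c b.2) t = t 0 * eval (jt ⟨t, ht⟩) (F b.2) := congrFun h4 b.2
    rw [eval_smul' (hdq b.1), h5, h6]
    have ht0 := ht 0
    have h7 : (t 0)⁻¹ ^ (dq b.1 + 1) * t 0 ^ dq b.1 * t 0 = 1 := by
      rw [mul_assoc, ← pow_succ, inv_pow, inv_mul_cancel₀ (pow_ne_zero _ ht0)]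
    calc _ = ((t 0)⁻¹ ^ (dq b.1 + 1) * t 0 ^ dq b.1 * t 0) *
        (eval (jt ⟨t, ht⟩) (g b) * eval (fun l => eval (jt ⟨t, ht⟩) (F l)) (q b.1) *
          eval (jt ⟨t, ht⟩) (F b.2)) := by ring
      _ = _ := by rw [h7, one_mul]
  · rw [Finset.sum_eq_single j]
    · rw [Pi.single_eq_same, inv_mul_cancel₀ hj]
    · intro b _ hb
      rw [Pi.single_eq_of_ne hb, zero_mul]
    · intro h
      exact absurd (Finset.mem_univ _) h
  · have h4 := congrFun (hfc ⟨t, ht⟩) l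
    change lev (c l) t = t 0 * eval (jt ⟨t, ht⟩) (F l) at h4
    change lev (c l) t = t 0 * bev (B l) _
    rw [h4, ← hB l, eval_rename]
    rfl

/-- the points reached along a given sequence of codes -/
def pcodeA (p : ι → MvPolynomial (Fin (n + 1)) ℂ) (q : μ → MvPolynomial (Fin (n + 1)) ℂ)
    (M₀ : Fin (n + 1) × Fin (n + 1) → ℂ) :
    List (Σ κ : Code, ℕ × Fin κ.k) → Set (Fin (n + 1) × Fin (n + 1) → ℂ)
  | [] => {M₀}
  | κ :: l => parcSetA p q κ.1 κ.2.1 κ.2.2 (pcodeA p q M₀ l)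

theorem reach_pcodeA (hp : ∀ i, ∃ d, (p i).IsHomogeneous d)
    (hq : ∀ j, ∃ d, (q j).IsHomogeneous d) {L : CP n → CP n → Prop}
    (hL : ∀ x x', L x x' → x ∈ QP p q ∧ x' ∈ QP p q ∧ ∀ (v v' : Fin (n + 1) → ℂ) (hv : v ≠ 0)
      (hv' : v' ≠ 0), CP.mk v hv = x → CP.mk v' hv' = x' → PLinkA p q v v')
    {v₀ η₀ : Fin (n + 1) → ℂ} {hv₀ : v₀ ≠ 0} (hX₀ : CP.mk v₀ hv₀ ∈ QP p q)
    (h₀ : ∑ i, v₀ i * η₀ i = 1) {x : CP n} (h : Relation.ReflTransGen L (CP.mk v₀ hv₀) x) :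
    ∀ (v η : Fin (n + 1) → ℂ) (hv : v ≠ 0), CP.mk v hv = x → ∑ i, v i * η i = 1 →
      ∃ l, outer v η ∈ pcodeA p q (outer v₀ η₀) l := by
  induction h with
  | refl =>
    intro v η hv hx hd
    obtain ⟨η', h1, h2⟩ := outer_smul (hv := hv₀) (hv' := hv) hd hx.symm
    rw [h2]
    obtain ⟨κ, hκ⟩ := step_of_plinkA hp hq (plinkA_refl hp hq hX₀) hX₀
      (A := pcodeA p q (outer v₀ η₀) []) rfl h₀ h1
    exact ⟨[κ], hκ⟩
  | @tail y z _ hl ih =>
    intro v η hv hx hd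
    obtain ⟨v₁, hv₁, hy⟩ := mk_surj y
    obtain ⟨h1, h2, h3⟩ := hL _ _ hl
    obtain ⟨l, hl⟩ := ih v₁ (dual v₁) hv₁ hy (dot_dual hv₁)
    obtain ⟨κ, hκ⟩ := step_of_plinkA hp hq (hv' := hv) (h3 v₁ v hv₁ hv hy hx) (by rw [hx]; exact h2)
      hl (dot_dual hv₁) hd
    exact ⟨κ :: l, hκ⟩

theorem main_linksA (𝒱 : PClass) (hp : ∀ i, ∃ d, (p i).IsHomogeneous d)
    (hq : ∀ j, ∃ d, (q j).IsHomogeneous d) (hs : IsSmooth (QP p q)) (hc : IsConnected (QP p q))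
    {L : CP n → CP n → Prop}
    (hL : ∀ x x', L x x' → x ∈ QP p q ∧ x' ∈ QP p q ∧ ∀ (v v' : Fin (n + 1) → ℂ) (hv : v ≠ 0)
      (hv' : v' ≠ 0), CP.mk v hv = x → CP.mk v' hv' = x' → PLinkA p q v v')
    {x₀ : CP n} (hx₀ : x₀ ∈ QP p q)
    (hthin : ¬ IsThin (QP p q) {x | Relation.ReflTransGen L x₀ x}) (x : QP p q) :
    ∃ H : Subgroup (FundamentalGroup (QP p q) x), H.FiniteIndex ∧ 𝒱.C H := by
  classical
  have : Encodable (Σ κ : Code, ℕ × Fin κ.k) := Encodable.ofCountable _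
  obtain ⟨ρ, hρ⟩ := exists_rho hp hq
  obtain ⟨σ, hσ⟩ := exists_sigma hp hq
  have hsub := isSubm_XT hp hq hs
  have hcon := connected_XT hp hq hc
  have hρσ : ∀ P, ρ (σ P) = P := by
    intro P
    obtain ⟨v, hv, hP⟩ := mk_surj P.1
    have hX : CP.mk v hv ∈ QP p q := by rw [hP]; exact P.2
    have e1 : P = ⟨CP.mk v hv, hX⟩ := Subtype.ext hP.symm
    rw [e1]
    have h1 : (σ ⟨CP.mk v hv, hX⟩) = ⟨outer v (dual v), outer_mem hp hq (dot_dual hv) hX⟩ :=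
      Subtype.ext (hσ v hv hX)
    rw [h1]
    exact Subtype.ext (hρ v (dual v) hv _ (dot_dual hv))
  obtain ⟨v₀, hv₀, rfl⟩ := mk_surj x₀
  have hpcX : PathConnectedSpace (QA (PT p) (QT q)) := pathConnected_of hsub hcon
  have hpc : PathConnectedSpace (QP p q) :=
    Function.Surjective.pathConnectedSpace (fun P => ⟨σ P, hρσ P⟩) ρ.continuous
  have hsurj : ∀ M, Function.Surjective (FundamentalGroup.map ρ M) := by
    intro M
    refine surj_transfer ρ (PathConnectedSpace.somePath M (σ (ρ M))) ?_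
    intro g
    obtain ⟨P, rfl⟩ := Path.Homotopic.Quotient.mk_surjective g
    have hP : ∀ t, ρ (σ (P t)) = P t := fun t => hρσ _
    have hσx : σ (ρ (σ (ρ M))) = σ (ρ M) := by rw [hρσ]
    refine ⟨Path.Homotopic.Quotient.mk ((P.map σ.continuous).cast hσx.symm hσx.symm), ?_⟩
    refine congrArg Path.Homotopic.Quotient.mk ?_
    ext1
    funext t
    exact hP t
  refine main_abs (L := List (Σ κ : Code, ℕ × Fin κ.k)) 𝒱 ρ hsurj hsub hcon
    (pcodeA p q (outer v₀ (dual v₀))) (fun l => ?_) (fun g hg => ?_) x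
  · induction l with
    | nil => exact goodSet_singleton _ _ (outer_mem hp hq (dot_dual hv₀) hx₀)
    | cons κ l ih => exact goodSet_parcA 𝒱 hp hq hρ κ.1 κ.2.1 κ.2.2 ih
  · obtain ⟨v, η, hv, hvS, hd, hgM⟩ := exists_of_notThin hp hq hthin hc.nonempty g hg
    exact ⟨outer v η, reach_pcodeA hp hq hL hx₀ (dot_dual hv₀) hvS v η hv rfl hd, hgM⟩

end

end Pool.Agent.X316.ZP
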