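import Pool.Agent.X316.ZP.Indep
import Pool.Agent.X316.ZP.Der
import Pool.Agent.X316.ZU.Ind
import Pool.Agent.Y193.CS.PMain

/-!
Zariski closures of curves given by exponential polynomials and the derivatives of a universal
function.
-/

set_option autoImplicit false

open Filter Topology Set MvPolynomial

namespace Pool.Agent.X316.ZP

open Pool.Agent.X316.ZG
open Pool.Agent.X316.ZU (jet jets_indep)
open Pool.Agent.TH143.EL (mero_an codis_ev codis_nhds)
open Pool.Agent.Y193.CS (IsExpPoly TT wT exp_lift exists_joukowski)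

variable {ι : Type}

/-- Outside a discrete set, the function `a` is a polynomial in exponential polynomials
`∑ P(z) exp(Q(z))` and the derivatives of the functions `u j`. -/
def InRing (u : ι → ℂ → ℂ) (a : ℂ → ℂ) : Prop :=
  ∃ (s : ℕ) (E : Fin s → ℂ → ℂ) (P : MvPolynomial ((ι × ℕ) ⊕ Fin s) ℂ), (∀ i, IsExpPoly (E i)) ∧
    ∀ᶠ z in codiscrete ℂ, a z = eval (Sum.elim (jet u z) fun i => E i z) P

theorem diff_exp {f : ℂ → ℂ} (h : IsExpPoly f) : Differentiable ℂ f := by
  obtain ⟨s, P, Q, hf⟩ := h
  have h1 : f = fun z => ∑ i, (P i).eval z * Complex.exp ((Q i).eval z) := funext hf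
  rw [h1]
  refine Differentiable.fun_sum fun i _ => ?_
  exact (P i).differentiable.mul (Q i).differentiable.cexp

theorem mero_exp {f : ℂ → ℂ} (h : IsExpPoly f) : Meromorphic f := fun z =>
  ((diff_exp h).analyticAt z).meromorphicAt

/-- a continuous function which vanishes outside a discrete set -/
theorem zero_of_codis {g : ℂ → ℂ} (hg : Continuous g) (h : ∀ᶠ z in codiscrete ℂ, g z = 0) (z : ℂ) :
    g z = 0 := by
  have h1 : Tendsto g (𝓝[≠] z) (𝓝 (g z)) := hg.continuousAt.tendsto.mono_left nhdsWithin_le_nhds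
  have h2 : Tendsto g (𝓝[≠] z) (𝓝 0) := by
    refine (tendsto_const_nhds (x := (0 : ℂ))).congr' ?_
    filter_upwards [codis_ev h z] with s hs
    exact hs.symm
  exact tendsto_nhds_unique h1 h2

theorem mero_id : Meromorphic fun z : ℂ => z := fun z => analyticAt_id.meromorphicAt

theorem mero_cexp (Q : Polynomial ℂ) : Meromorphic fun z : ℂ => Complex.exp (Q.eval z) := fun z =>
  (Q.differentiable.cexp.analyticAt z).meromorphicAt

theorem cl_poly (P : Polynomial ℂ) : cl (fun z => P.eval z)
    (fun z => (P.differentiable.analyticAt z).meromorphicAt) =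
      Polynomial.aeval (cl (fun z => z) mero_id) P := by
  induction P using Polynomial.induction_on' with
  | add P Q hP hQ =>
    rw [map_add, ← hP, ← hQ, cl_add]
    apply cl_eq
    exact Eventually.of_forall fun z => Polynomial.eval_add
  | monomial n c =>
    rw [Polynomial.aeval_monomial]
    have h1 : ∀ n : ℕ, (cl (fun z => z) mero_id) ^ n = cl (fun z => z ^ n)
        (fun z => (mero_id z).pow n) :=
      fun n => rfl
    rw [h1, cl_const, cl_mul]
    apply cl_eq
    exact Eventually.of_forall fun z => Polynomial.eval_monomial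

/-- a differential ring of finite type which contains given exponential polynomials -/
theorem exp_ring {Λ : Type} [Finite Λ] (E : Λ → ℂ → ℂ) (hE : ∀ a, IsExpPoly (E a)) :
    ∃ S : Set Mf, S.Finite ∧ (∀ s ∈ S, dM s ∈ Algebra.adjoin ℂ S) ∧
      ∀ a, cl (E a) (mero_exp (hE a)) ∈ Algebra.adjoin ℂ S := by
  classical
  have hE' := hE
  choose s P Q hf using hE'
  let ex : (Σ a, Fin (s a)) → Mf := fun i =>
    cl (fun z => Complex.exp ((Q i.1 i.2).eval z)) (mero_cexp _)
  let S : Set Mf := insert (cl (fun z => z) mero_id) (Set.range ex)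
  have hX : cl (fun z => z) mero_id ∈ Algebra.adjoin ℂ S :=
    Algebra.subset_adjoin (Set.mem_insert _ _)
  have hP : ∀ T : Polynomial ℂ, cl (fun z => T.eval z)
      (fun z => (T.differentiable.analyticAt z).meromorphicAt) ∈ Algebra.adjoin ℂ S := by
    intro T
    rw [cl_poly]
    exact Polynomial.aeval_mem_adjoin_singleton ℂ _ |> fun h =>
      Algebra.adjoin_mono (Set.singleton_subset_iff.2 (Set.mem_insert _ _)) h
  have hex : ∀ i, ex i ∈ Algebra.adjoin ℂ S := fun i =>
    Algebra.subset_adjoin (Set.mem_insert_of_mem _ ⟨i, rfl⟩)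
  refine ⟨S, (Set.finite_range ex).insert _, ?_, fun a => ?_⟩
  · rintro y (rfl | ⟨i, rfl⟩)
    · rw [dM_cl]
      have h1 : cl (deriv fun z : ℂ => z) (mero_deriv mero_id) = 1 := by
        change _ = cl (fun _ => 1) (Meromorphic.const 1)
        apply cl_eq
        exact Eventually.of_forall fun z => deriv_id z
      rw [h1]
      exact Subalgebra.one_mem _
    · change dM (cl _ _) ∈ _
      rw [dM_cl]
      have h1 : cl (deriv fun z => Complex.exp ((Q i.1 i.2).eval z)) (mero_deriv (mero_cexp _)) =
          ex i * cl (fun z => (Polynomial.derivative (Q i.1 i.2)).eval z)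
            (fun z => ((Polynomial.derivative (Q i.1 i.2)).differentiable.analyticAt
              z).meromorphicAt) := by
        change _ = cl _ _ * _
        rw [cl_mul]
        apply cl_eq
        refine Eventually.of_forall fun z => ?_
        exact (((Q i.1 i.2).hasDerivAt z).cexp).deriv
      rw [h1]
      exact Subalgebra.mul_mem _ (hex i) (hP _)
  · have h1 : cl (E a) (mero_exp ⟨s a, P a, Q a, hf a⟩) =
        ∑ i : Fin (s a), cl (fun z => (P a i).eval z)
          (fun z => ((P a i).differentiable.analyticAt z).meromorphicAt) * ex ⟨a, i⟩ := by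
      have h2 : ∀ i : Fin (s a), cl (fun z => (P a i).eval z)
          (fun z => ((P a i).differentiable.analyticAt z).meromorphicAt) * ex ⟨a, i⟩ =
          Ideal.Quotient.mk nullI (⟨fun z => (P a i).eval z * Complex.exp ((Q a i).eval z),
            fun z => (((P a i).differentiable.analyticAt z).meromorphicAt).mul
              (mero_cexp _ z)⟩ : merS) := fun i => rfl
      rw [Finset.sum_congr rfl fun i _ => h2 i, ← map_sum]
      change Ideal.Quotient.mk nullI _ = _
      congr 1
      apply Subtype.ext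
      funext z
      rw [AddSubmonoidClass.coe_finsetSum, Finset.sum_apply]
      exact hf a z
    rw [h1]
    exact Subalgebra.sum_mem _ fun i _ => Subalgebra.mul_mem _ (hP _) (hex _)

/-- polynomials in two groups of variables -/
theorem sum_eval {σ Λ A : Type} [CommRing A] [Algebra ℂ A] (b : σ → A)
    (φ : MvPolynomial Λ ℂ →ₐ[ℂ] A) (H : MvPolynomial (σ ⊕ Λ) ℂ) :
    eval₂ (φ : MvPolynomial Λ ℂ →+* A) b (sumAlgEquiv ℂ σ Λ H) =
      aeval (Sum.elim b fun a => φ (X a)) H := by
  have h1 : ((eval₂Hom (φ : MvPolynomial Λ ℂ →+* A) b).comp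
      ((sumAlgEquiv ℂ σ Λ : MvPolynomial (σ ⊕ Λ) ℂ ≃ₐ[ℂ] _) :
        MvPolynomial (σ ⊕ Λ) ℂ →+* MvPolynomial σ (MvPolynomial Λ ℂ))) =
      (aeval (Sum.elim b fun a => φ (X a)) : MvPolynomial (σ ⊕ Λ) ℂ →ₐ[ℂ] A).toRingHom := by
    refine MvPolynomial.ringHom_ext (fun c => ?_) ?_
    · simp
    · rintro (i | i) <;> simp
  exact RingHom.congr_fun h1 H

/-- **Zariski closures.** The Zariski closure of a curve given by exponential polynomials and the
derivatives of a universal family is the closure of the image of a torus. -/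
theorem mix_closure {u : ι → ℂ → ℂ} (hu : JointlyUniversal u) {I : Type} [Fintype I]
    (f : I → ℂ → ℂ) (hf : ∀ l, InRing u (f l)) :
    ∃ (k : ℕ) (F : I → MvPolynomial (Fin k ⊕ Fin k) ℂ), ∀ G : MvPolynomial I ℂ,
      (∀ᶠ z in codiscrete ℂ, eval (fun l => f l z) G = 0) ↔
        ∀ t : TT k, eval (fun l => eval (fun i => wT k i t) (F l)) G = 0 := by
  classical
  choose s E P hE hP using hf
  let Λ : Type := Σ l : I, Fin (s l)
  let EE : Λ → ℂ → ℂ := fun a => E a.1 a.2
  have hEE : ∀ a, IsExpPoly (EE a) := fun a => hE a.1 a.2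
  let PP : I → MvPolynomial ((ι × ℕ) ⊕ Λ) ℂ := fun l =>
    rename (Sum.map id fun i => (⟨l, i⟩ : Λ)) (P l)
  let V : Finset (ι × ℕ) := (Finset.univ.biUnion fun l => (PP l).vars).toLeft
  let m := V.card
  let e : Fin m → ι × ℕ := fun j => (V.equivFin.symm j : V).1
  have he : Function.Injective e := fun a b h => V.equivFin.symm.injective (Subtype.ext h)
  have hQ : ∀ l, ∃ q : MvPolynomial (Fin m ⊕ Λ) ℂ, rename (Sum.map e id) q = PP l := by
    intro l
    apply exists_rename_eq_of_vars_subset_range _ _ (Sum.map_injective.2 ⟨he, Function.injective_id⟩)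
    rintro (v | a) hv
    · have h1 : v ∈ V := by
        rw [Finset.mem_toLeft, Finset.mem_biUnion]
        exact ⟨l, Finset.mem_univ _, hv⟩
      refine ⟨Sum.inl (V.equivFin ⟨v, h1⟩), ?_⟩
      change Sum.inl (V.equivFin.symm (V.equivFin ⟨v, h1⟩) : V).1 = _
      rw [Equiv.symm_apply_apply]
    · exact ⟨Sum.inr a, rfl⟩
  choose q hq using hQ
  have hfq : ∀ᶠ z in codiscrete ℂ, ∀ l, f l z =
      eval (Sum.elim (fun j => jet u z (e j)) fun a => EE a z) (q l) := by
    rw [eventually_all]
    intro l
    filter_upwards [hP l] with z hz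
    rw [hz]
    have h1 : eval (Sum.elim (jet u z) fun a => EE a z) (PP l) =
        eval (Sum.elim (jet u z) fun i => E l i z) (P l) := by
      change eval _ (rename _ (P l)) = _
      rw [eval_rename]
      congr 2
      funext i
      rcases i with i | i <;> rfl
    rw [← h1, ← hq l, eval_rename]
    congr 2
    funext i
    rcases i with i | i <;> rfl
  obtain ⟨k0, F0, γ, hF0, hG0⟩ := exp_lift EE hEE
  obtain ⟨S, hSf, hDS, hES⟩ := exp_ring EE hEE
  have hind : AlgebraicIndependent (Algebra.adjoin ℂ S) (xc hu.mero) := by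
    refine indep_over dM ?_ (dM_xc hu.mero) hSf hDS
    rw [algebraicIndependent_iff]
    intro T hT
    apply jets_indep hu
    have h1 := (aeval_cl_zero (fun v : ι × ℕ => iteratedDeriv v.2 (u v.1))
      (fun v => meromorphic_iteratedDeriv (hu.mero v.1) v.2) T).1 hT
    exact h1
  have hind' : AlgebraicIndependent (Algebra.adjoin ℂ S) fun j : Fin m => xc hu.mero (e j) :=
    hind.comp e he
  let θ : MvPolynomial Λ ℂ →ₐ[ℂ] Algebra.adjoin ℂ S := aeval fun a => ⟨_, hES a⟩
  -- the main equivalence
  have key : ∀ H : MvPolynomial (Fin m ⊕ Λ) ℂ,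
      (∀ᶠ z in codiscrete ℂ, eval (Sum.elim (fun j => jet u z (e j)) fun a => EE a z) H = 0) →
      ∀ (t : TT k0) (b : Fin m → ℂ),
        eval (Sum.elim b fun a => eval (fun i => wT k0 i t) (F0 a)) H = 0 := by
    intro H hH t b
    let H' := sumAlgEquiv ℂ (Fin m) Λ H
    let φ : MvPolynomial Λ ℂ →ₐ[ℂ] Mf := (Algebra.adjoin ℂ S).val.comp θ
    have hφX : ∀ a, φ (X a) = cl (EE a) (mero_exp (hEE a)) := by
      intro a
      change ((aeval (fun a => (⟨_, hES a⟩ : Algebra.adjoin ℂ S)) (X a) : Algebra.adjoin ℂ S) :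
        Mf) = _
      rw [aeval_X]
    have h1 := sum_eval (fun j : Fin m => xc hu.mero (e j)) φ H
    have h2 : aeval (Sum.elim (fun j : Fin m => xc hu.mero (e j)) fun a => φ (X a)) H = 0 := by
      have h3 : (Sum.elim (fun j : Fin m => xc hu.mero (e j)) fun a => φ (X a)) =
          fun i : Fin m ⊕ Λ => cl (Sum.elim (fun j : Fin m => iteratedDeriv (e j).2 (u (e j).1))
            EE i) (by
              rcases i with i | i
              · exact meromorphic_iteratedDeriv (hu.mero _) _
              · exact mero_exp (hEE i)) := by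
        funext i
        rcases i with i | i
        · rfl
        · exact hφX i
      rw [h3, aeval_cl_zero]
      filter_upwards [hH] with z hz
      rw [← hz]
      congr 2
      funext i
      rcases i with i | i <;> rfl
    rw [h2] at h1
    have h4 : map (θ : MvPolynomial Λ ℂ →+* Algebra.adjoin ℂ S) H' = 0 := by
      apply (algebraicIndependent_iff.1 hind')
      rw [aeval_def, eval₂_map]
      exact h1
    have h5 : ∀ α, θ (coeff α H') = 0 := by
      intro α
      have h6 := congrArg (coeff α) h4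
      rw [coeff_map, coeff_zero] at h6
      exact h6
    have h6 : ∀ α, eval (fun a => eval (fun i => wT k0 i t) (F0 a)) (coeff α H') = 0 := by
      intro α
      refine hG0 (coeff α H') (fun z => ?_) t
      have h7 : aeval (fun a => cl (EE a) (mero_exp (hEE a))) (coeff α H') = 0 := by
        have h8 := MvPolynomial.comp_aeval_apply
          (f := fun a => (⟨_, hES a⟩ : Algebra.adjoin ℂ S)) (Algebra.adjoin ℂ S).val (coeff α H')
        have h9 : (Algebra.adjoin ℂ S).val (aeval (fun a => (⟨_, hES a⟩ : Algebra.adjoin ℂ S))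
            (coeff α H')) = 0 := by
          have h10 : aeval (fun a => (⟨_, hES a⟩ : Algebra.adjoin ℂ S)) (coeff α H') = 0 := h5 α
          rw [h10, map_zero]
        rw [h9] at h8
        exact h8.symm
      rw [aeval_cl_zero] at h7
      refine zero_of_codis ?_ h7 z
      exact (MvPolynomial.continuous_eval (coeff α H')).comp
        (continuous_pi fun a => (diff_exp (hEE a)).continuous)
    have h7 := sum_eval b (aeval fun a => eval (fun i => wT k0 i t) (F0 a) :
      MvPolynomial Λ ℂ →ₐ[ℂ] ℂ) H
    have h8 : eval₂ ((aeval fun a => eval (fun i => wT k0 i t) (F0 a) :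
        MvPolynomial Λ ℂ →ₐ[ℂ] ℂ) : MvPolynomial Λ ℂ →+* ℂ) b H' = 0 := by
      rw [eval₂_eq]
      refine Finset.sum_eq_zero fun α _ => ?_
      have h9 : ((aeval fun a => eval (fun i => wT k0 i t) (F0 a) :
        MvPolynomial Λ ℂ →ₐ[ℂ] ℂ) : MvPolynomial Λ ℂ →+* ℂ) (coeff α H') = 0 := by
        have h10 := h6 α
        rw [← aeval_eq_eval] at h10
        exact h10
      rw [h9, zero_mul]
    rw [h8] at h7
    rw [← aeval_eq_eval]
    rw [h7]
    congr 2
    funext i
    rcases i with i | i
    · rfl
    · change _ = aeval _ (X i)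
      rw [aeval_X]
      rfl
  -- the torus
  let L0 : Fin k0 ⊕ Fin k0 → Fin (k0 + m) ⊕ Fin (k0 + m) :=
    Sum.map (Fin.castAdd m) (Fin.castAdd m)
  let bb : Fin m ⊕ Λ → MvPolynomial (Fin (k0 + m) ⊕ Fin (k0 + m)) ℂ :=
    Sum.elim (fun j => X (Sum.inl (Fin.natAdd k0 j)) + X (Sum.inr (Fin.natAdd k0 j)))
      fun a => rename L0 (F0 a)
  have hbb : ∀ (t : TT (k0 + m)), ∃ (t1 : TT k0) (b : Fin m → ℂ), ∀ i,
      eval (fun i => wT (k0 + m) i t) (bb i) =
        Sum.elim b (fun a => eval (fun i => wT k0 i t1) (F0 a)) i := by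
    intro t
    refine ⟨⟨fun j => t.1 (Fin.castAdd m j), fun j => t.2 _⟩,
      fun j => t.1 (Fin.natAdd k0 j) + (t.1 (Fin.natAdd k0 j))⁻¹, ?_⟩
    rintro (j | a)
    · change eval _ (X _ + X _) = _
      rw [map_add, eval_X, eval_X]
      rfl
    · change eval _ (rename L0 (F0 a)) = _
      rw [eval_rename]
      change _ = eval _ (F0 a)
      congr 2
      funext i
      rcases i with i | i <;> rfl
  have hbb' : ∀ (t1 : TT k0) (b : Fin m → ℂ), ∃ t : TT (k0 + m), ∀ i,
      eval (fun i => wT (k0 + m) i t) (bb i) =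
        Sum.elim b (fun a => eval (fun i => wT k0 i t1) (F0 a)) i := by
    intro t1 b
    choose τ hτ0 hτ using exists_joukowski
    refine ⟨⟨Fin.append t1.1 fun j => τ (b j), fun j => ?_⟩, ?_⟩
    · refine Fin.addCases (fun i => ?_) (fun i => ?_) j
      · rw [Fin.append_left]
        exact t1.2 i
      · rw [Fin.append_right]
        exact hτ0 _
    rintro (j | a)
    · change eval _ (X _ + X _) = _
      rw [map_add, eval_X, eval_X]
      change Fin.append t1.1 (fun j => τ (b j)) (Fin.natAdd k0 j) +
        (Fin.append t1.1 (fun j => τ (b j)) (Fin.natAdd k0 j))⁻¹ = b j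
      rw [Fin.append_right, hτ]
    · change eval _ (rename L0 (F0 a)) = _
      rw [eval_rename]
      change _ = eval _ (F0 a)
      congr 2
      funext i
      rcases i with i | i
      · change Fin.append t1.1 (fun j => τ (b j)) (Fin.castAdd m i) = _
        rw [Fin.append_left]
        rfl
      · change (Fin.append t1.1 (fun j => τ (b j)) (Fin.castAdd m i))⁻¹ = _
        rw [Fin.append_left]
        rfl
  refine ⟨k0 + m, fun l => bind₁ bb (q l), fun G => ?_⟩
  have hFt : ∀ t : TT (k0 + m), (fun l => eval (fun i => wT (k0 + m) i t) (bind₁ bb (q l))) =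
      fun l => eval (fun i => eval (fun i => wT (k0 + m) i t) (bb i)) (q l) := by
    intro t
    funext l
    exact eval₂Hom_bind₁ _ _ _ _
  have hG : ∀ c : Fin m ⊕ Λ → ℂ, eval c (bind₁ q G) = eval (fun l => eval c (q l)) G :=
    fun c => eval₂Hom_bind₁ _ _ _ _
  constructor
  · intro h t
    rw [hFt]
    obtain ⟨t1, b, htb⟩ := hbb t
    have h1 := key (bind₁ q G) (by
      filter_upwards [h, hfq] with z h2 h3
      rw [hG, ← h2]
      congr 2
      funext l
      exact (h3 l).symm) t1 b
    rw [hG] at h1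
    rw [← h1]
    congr 2
    funext l
    congr 2
    funext i
    exact htb i
  · intro h
    filter_upwards [hfq] with z hz
    obtain ⟨t, ht⟩ := hbb' (γ z) fun j => jet u z (e j)
    have h1 := h t
    rw [hFt] at h1
    rw [← h1]
    congr 2
    funext l
    rw [hz l]
    congr 2
    funext i
    rw [ht i]
    rcases i with i | i
    · rfl
    · exact hF0 i z

end Pool.Agent.X316.ZP
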