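import Pool.Agent.X316.ZP.Link

/-!
Fundamental groups of quasi-projective varieties which are connected by chains of images of test
varieties: the case of chains which do not stay in a countable union of proper closed subsets.
-/

set_option autoImplicit false

open Filter Topology Set

namespace Pool.Agent.X316.ZP

open Pool.Agent.Y193.CS Pool.Agent.Y193.FG

section

variable {n : ℕ} {ι κ : Type} [Fintype κ] {p : ι → MvPolynomial (Fin (n + 1)) ℂ}
  {q : κ → MvPolynomial (Fin (n + 1)) ℂ}

theorem main_thin (𝒱 : PClass) (hp : ∀ i, ∃ d, (p i).IsHomogeneous d)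
    (hq : ∀ j, ∃ d, (q j).IsHomogeneous d) (hs : IsSmooth (QP p q)) (hc : IsConnected (QP p q))
    {K : Type} [Countable K] {r : K → ℕ} {Y : ∀ k, Set (Fin (r k) → ℂ)}
    (hYa : ∀ k, AlgSet (Y k)) (hYc : ∀ k, IsPathConnected (Y k))
    (hYV : ∀ k, ∀ φ : C(Y k, QP p q), IsRegularMap (Y k) (fun y => (φ y).1) →
      ∀ y : Y k, 𝒱.C (FundamentalGroup.map φ y).range) {x₀ : CP n} (hx₀ : x₀ ∈ QP p q)
    (hthin : ¬ IsThin (QP p q) {x | Relation.ReflTransGen (Linked (QP p q) Y) x₀ x})
    (x : QP p q) : ∃ H : Subgroup (FundamentalGroup (QP p q) x), H.FiniteIndex ∧ 𝒱.C H := by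
  classical
  have : Encodable K := Encodable.ofCountable K
  obtain ⟨ρ, hρ⟩ := exists_rho hp hq
  obtain ⟨σ, hσ⟩ := exists_sigma hp hq
  have hsub := isSubm_XT hp hq hs
  have hcon := connected_XT hp hq hc
  have hρσ : ∀ P, ρ (σ P) = P := by
    intro P
    obtain ⟨v, hv, hP⟩ := mk_surj P.1
    have hX : CP.mk v hv ∈ QP p q := by rw [hP]; exact P.2
    have e1 : P = ⟨CP.mk v hv, hX⟩ := Subtype.ext hP.symm
    rw [e1]
    have h1 : (σ ⟨CP.mk v hv, hX⟩) = ⟨outer v (dual v), outer_mem hp hq (dot_dual hv) hX⟩ :=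
      Subtype.ext (hσ v hv hX)
    rw [h1]
    exact Subtype.ext (hρ v (dual v) hv _ (dot_dual hv))
  obtain ⟨v₀, hv₀, rfl⟩ := mk_surj x₀
  have hpcX : PathConnectedSpace (QA (PT p) (QT q)) := pathConnected_of hsub hcon
  have hpc : PathConnectedSpace (QP p q) :=
    Function.Surjective.pathConnectedSpace (fun P => ⟨σ P, hρσ P⟩) ρ.continuous
  -- surjectivity on fundamental groups
  have hsurj : ∀ M, Function.Surjective (FundamentalGroup.map ρ M) := by
    intro M
    refine surj_transfer ρ (PathConnectedSpace.somePath M (σ (ρ M))) ?_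
    intro g
    obtain ⟨P, rfl⟩ := Path.Homotopic.Quotient.mk_surjective g
    have hP : ∀ t, ρ (σ (P t)) = P t := fun t => hρσ _
    have hσx : σ (ρ (σ (ρ M))) = σ (ρ M) := by rw [hρσ]
    refine ⟨Path.Homotopic.Quotient.mk ((P.map σ.continuous).cast hσx.symm hσx.symm), ?_⟩
    refine congrArg Path.Homotopic.Quotient.mk ?_
    ext1
    funext t
    exact hP t
  -- the theorem for the affine bundle
  exact main_verbal (K := Option K) (r := rT r) (Y := YT Y) (x₀ := outer v₀ (dual v₀)) 𝒱 ρ hsurj
    hsub hcon (by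
      rintro (_ | k)
      · exact ⟨∅, by simp [YT]⟩
      · exact hYa k) (by
      rintro (_ | k)
      · exact isPathConnected_univ
      · exact hYc k) (by
      rintro (_ | k) f hf y
      · have : ContractibleSpace (YT Y none) :=
          (Homeomorph.Set.univ (Fin 1 → ℂ)).contractibleSpace
        have := subsingleton_pi1 y
        exact 𝒱.of_surjective (FundamentalGroup.map (ρ.comp (pmap f hf)) y).rangeRestrict
          (MonoidHom.rangeRestrict_surjective _) (class_subsingleton 𝒱)
      · exact hYV k (ρ.comp (pmap f hf)) (isRegular_rho hp hq hρ f hf) y)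
    (outer_mem hp hq (dot_dual hv₀) hx₀) (by
      intro g hg
      obtain ⟨v, η, hv, hvS, hd, hgM⟩ := exists_of_notThin hp hq hthin hc.nonempty g hg
      exact ⟨outer v η, reach_lift hp hq hYa hx₀ (dot_dual hv₀) hvS v η hv rfl hd, hgM⟩) x

/-- the class of the trivial groups -/
def trivC : PClass where
  C G _ := Subsingleton G
  triv := inferInstance
  of_injective := fun _ hf h => by
    have := h
    exact hf.subsingleton
  of_surjective := fun _ hf h => by
    have := h
    exact hf.subsingleton
  prod := fun h1 h2 => by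
    have := h1
    have := h2
    infer_instance

theorem finite_of_triv {G : Type} [Group G] (h : ∃ H : Subgroup G, H.FiniteIndex ∧ trivC.C H) :
    Finite G := by
  obtain ⟨H, hH, hs⟩ := h
  have h1 : Subsingleton H := hs
  have h2 : Finite (G ⧸ H) := H.finite_quotient_of_finiteIndex
  exact Finite.of_equiv _ (Subgroup.groupEquivQuotientProdSubgroup (s := H)).symm

/-- the affine line as a test variety -/
abbrev Y1 : ∀ _ : Unit, Set (Fin 1 → ℂ) := fun _ => univ

/-- **Finite fundamental groups.** -/
theorem finite_of_lines (hp : ∀ i, ∃ d, (p i).IsHomogeneous d)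
    (hq : ∀ j, ∃ d, (q j).IsHomogeneous d) (hs : IsSmooth (QP p q)) (hc : IsConnected (QP p q))
    {x₀ : CP n} (hx₀ : x₀ ∈ QP p q)
    (hthin : ¬ IsThin (QP p q) {x | Relation.ReflTransGen
      (Linked (K := Unit) (r := fun _ => 1) (QP p q) Y1) x₀ x})
    (x : QP p q) : Finite (FundamentalGroup (QP p q) x) := by
  apply finite_of_triv
  refine main_thin trivC hp hq hs hc (K := Unit) (r := fun _ => 1) (Y := Y1)
    (fun _ => ⟨∅, by simp⟩) (fun _ => isPathConnected_univ) (fun _ φ _ y => ?_) hx₀ hthin x
  have : ContractibleSpace (univ : Set (Fin 1 → ℂ)) :=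
    (Homeomorph.Set.univ (Fin 1 → ℂ)).contractibleSpace
  have := subsingleton_pi1 y
  exact trivC.of_surjective (FundamentalGroup.map φ y).rangeRestrict
    (MonoidHom.rangeRestrict_surjective _) (class_subsingleton trivC)

end

end Pool.Agent.X316.ZP
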